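import Pool.Agent.L5helper76.Sync.Fin

/-! At a maximal point the relation of having the same state is balanced. -/

open Topology Filter Set MeasureTheory
open Pool.Agent.GR.Flow (volt cst cst_apply ext continuous_ext ext_of_mem norm_ext_le volt_apply
  volt_norm_le)

noncomputable section

namespace Pool.Agent.L5helper76.Sync

variable {N A S K Z : Type} [Fintype N] [DecidableEq N] [Fintype A] {G : Network N A S K Z}
  {P : Z → Type} [∀ τ, NormedAddCommGroup (P τ)] [∀ τ, NormedSpace ℝ (P τ)]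
  [∀ τ, FiniteDimensional ℝ (P τ)]
variable {sm : Prop} {f : G.State P → G.State P} {x0 : ℝ → G.State P} {u0 : C(unitInterval, G.State P)}
  {T0 δ : ℝ} {h : G.State P → G.State P} {u : C(unitInterval, G.State P)} {T : ℝ}

lemma exists_bound_fderiv (hG : Good G P sm f x0 u0 T0 δ h u T) :
    ∃ C : ℝ, 0 ≤ C ∧ ∀ s, ‖fderiv ℝ h (u s)‖ ≤ C := by
  have hc : Continuous fun s => fderiv ℝ h (u s) :=
    (hG.adm.1.continuous_fderiv one_ne_zero).comp u.continuous
  obtain ⟨C, hC⟩ := isCompact_univ.exists_bound_of_continuousOn hc.continuousOn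
  exact ⟨C, (norm_nonneg _).trans (hC 0 (mem_univ _)), fun s => hC s (mem_univ _)⟩

lemma near_interior {s : unitInterval} (h0 : (0:ℝ) < s) (h1 : (s:ℝ) < 1) :
    ∀ᶠ s' : unitInterval in 𝓝 s, (0:ℝ) < s' ∧ (s':ℝ) < 1 := by
  have hc : ContinuousAt (fun s' : unitInterval => (s':ℝ)) s := continuous_subtype_val.continuousAt
  exact (hc.eventually (lt_mem_nhds h0)).and (hc.eventually (gt_mem_nhds h1))

theorem IsMaxPt.rest_inputs [∀ τ, Nontrivial (P τ)] {s : unitInterval}
    (hm : IsMaxPt G P sm f x0 u0 T0 δ h u T s) (h0 : (0:ℝ) < s) (h1 : (s:ℝ) < 1) {a : N}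
    (ha : h (u s) a = 0) : ∀ e : G.Inputs a, h (u s) (G.tail e.1) = 0 := by
  obtain ⟨v, hv⟩ := exists_ne (0 : P (G.space a))
  obtain ⟨C, hC0, hC⟩ := hm.good.perturb
  obtain ⟨C1, hC10, hC1⟩ := exists_bound_fderiv hm.good
  set V : Set (G.Local P a) := {z | ∃ s', IsMaxPt G P sm f x0 u0 T0 δ h u T s' ∧ (0:ℝ) < s' ∧
    (s':ℝ) < 1 ∧ h (u s') a = 0 ∧ obs G P a (u s') = z} with hV
  have hfin : V.Finite := by
    refine finite_values v hv u V (C1 * C) (by positivity) ?_
    rintro z ⟨s', hm', h0', h1', ha', rfl⟩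
    refine ⟨1, one_pos, fun r hr _ => ?_⟩
    obtain ⟨ξ, η, hξ0, hξd, hη, hgood⟩ := hC _ (gk_adm (obs G P a (u s')) hr v)
      (gk_bdd (obs G P a (u s')) hr v)
    have h2 := (hm'.response h0' h1' (gk_adm (obs G P a (u s')) hr v) hξ0 hξd hgood).2 a ha'
    have h3 : gk (obs G P a (u s')) hr v (u s') a = -(fderiv ℝ h (u s') (η.1 s') a) := by
      rw [Pi.add_apply] at h2
      exact (neg_eq_of_add_eq_zero_right h2).symm
    calc ‖v‖ ≤ ‖gk (obs G P a (u s')) hr v (u s') a‖ := norm_gk_self _ hr v _ rfl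
      _ = ‖fderiv ℝ h (u s') (η.1 s') a‖ := by rw [h3, norm_neg]
      _ ≤ ‖fderiv ℝ h (u s') (η.1 s')‖ := norm_le_pi_norm _ a
      _ ≤ C1 * ‖η.1‖ := (fderiv ℝ h (u s')).le_of_opNorm_le_of_le (hC1 s') (η.1.norm_coe_le_norm s')
      _ ≤ C1 * (C * ∫ ρ in (0:ℝ)..1, ‖gk (obs G P a (u s')) hr v (ext u ρ)‖) := by gcongr
      _ = _ := by ring
  refine (rest_of_const hm.good h0 h1 (const_of_finite u s V hfin ?_)).2
  filter_upwards [hm.near_s, near_interior h0 h1] with s' h2 h3
  exact ⟨s', h2.1, h3.1, h3.2, (h2.2.1 a).1 ha, rfl⟩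

theorem IsMaxPt.matching [∀ τ, Nontrivial (P τ)] {s : unitInterval}
    (hm : IsMaxPt G P sm f x0 u0 T0 δ h u T s) (h0 : (0:ℝ) < s) (h1 : (s:ℝ) < 1) {a b : N}
    (ha : h (u s) a ≠ 0) (hab : Same (u s a) (u s b)) :
    ∃ β : G.InputIso a b, pull P β (obs G P b (u s)) = obs G P a (u s) := by
  by_contra hno
  push Not at hno
  obtain ⟨v, hv⟩ := exists_ne (0 : P (G.space a))
  obtain ⟨C, hC0, hC⟩ := hm.good.perturb
  obtain ⟨C1, hC10, hC1⟩ := exists_bound_fderiv hm.good
  set V : Set (G.Local P a) := {z | ∃ s', IsMaxPt G P sm f x0 u0 T0 δ h u T s' ∧ (0:ℝ) < s' ∧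
    (s':ℝ) < 1 ∧ Same (u s' a) (u s' b) ∧
    (∀ β : G.InputIso a b, pull P β (obs G P b (u s')) ≠ obs G P a (u s')) ∧
    obs G P a (u s') = z} with hV
  have hfin : V.Finite := by
    refine finite_values v hv u V (2 * C1 * C) (by positivity) ?_
    rintro z ⟨s', hm', h0', h1', hab', hno', rfl⟩
    have hr0 : ∃ r0 : ℝ, 0 < r0 ∧ ∀ β : G.InputIso a b,
        r0 ≤ dist (pull P β (obs G P b (u s'))) (obs G P a (u s')) := by
      have e1 : ∀ᶠ r in 𝓝[>] (0:ℝ), ∀ β : G.InputIso a b,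
          r ≤ dist (pull P β (obs G P b (u s'))) (obs G P a (u s')) := by
        rw [eventually_all]
        intro β
        filter_upwards [nhdsWithin_le_nhds (gt_mem_nhds (dist_pos.2 (hno' β)))] with r hr
        exact le_of_lt hr
      obtain ⟨r, hr, hr'⟩ := (e1.and self_mem_nhdsWithin).exists
      exact ⟨r, hr', hr⟩
    obtain ⟨r0, hr0, hr0'⟩ := hr0
    refine ⟨r0, hr0, fun r hr hrr => ?_⟩
    obtain ⟨ξ, η, hξ0, hξd, hη, hgood⟩ := hC _ (gk_adm (obs G P a (u s')) hr v)
      (gk_bdd (obs G P a (u s')) hr v)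
    have h2 := ((hm'.response h0' h1' (gk_adm (obs G P a (u s')) hr v) hξ0 hξd hgood).1 a b
      hab').2
    have ht := hab'.ty
    have h3 : gk (obs G P a (u s')) hr v (u s') b = 0 := by
      rw [gk_apply]
      refine Finset.sum_eq_zero fun β _ => ?_
      rw [bmp_far _ _ hr (hrr.le.trans (hr0' β)), zero_smul]
    rw [same_iff ht, Pi.add_apply, Pi.add_apply, h3, add_zero, map_add] at h2
    have h4 : tr P ht (gk (obs G P a (u s')) hr v (u s') a) =
        fderiv ℝ h (u s') (η.1 s') b - tr P ht (fderiv ℝ h (u s') (η.1 s') a) := by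
      rw [← h2]; abel
    have h5 : ‖fderiv ℝ h (u s') (η.1 s')‖ ≤ C1 * ‖η.1‖ :=
      (fderiv ℝ h (u s')).le_of_opNorm_le_of_le (hC1 s') (η.1.norm_coe_le_norm s')
    calc ‖v‖ ≤ ‖gk (obs G P a (u s')) hr v (u s') a‖ := norm_gk_self _ hr v _ rfl
      _ = ‖tr P ht (gk (obs G P a (u s')) hr v (u s') a)‖ := (norm_tr _ _).symm
      _ ≤ ‖fderiv ℝ h (u s') (η.1 s') b‖ + ‖tr P ht (fderiv ℝ h (u s') (η.1 s') a)‖ := by
          rw [h4]; exact norm_sub_le _ _
      _ = ‖fderiv ℝ h (u s') (η.1 s') b‖ + ‖fderiv ℝ h (u s') (η.1 s') a‖ := by rw [norm_tr]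
      _ ≤ C1 * ‖η.1‖ + C1 * ‖η.1‖ :=
          add_le_add ((norm_le_pi_norm _ b).trans h5) ((norm_le_pi_norm _ a).trans h5)
      _ = 2 * C1 * ‖η.1‖ := by ring
      _ ≤ 2 * C1 * (C * ∫ ρ in (0:ℝ)..1, ‖gk (obs G P a (u s')) hr v (ext u ρ)‖) := by gcongr
      _ = _ := by ring
  refine ha (rest_of_const hm.good h0 h1 (const_of_finite u s V hfin ?_)).1
  have e2 : ∀ᶠ s' in 𝓝 s, ∀ β : G.InputIso a b,
      pull P β (obs G P b (u s')) ≠ obs G P a (u s') := by
    rw [eventually_all]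
    intro β
    have c1 : ContinuousAt (fun s' => pull P β (obs G P b (u s'))) s :=
      (((pull P β).comp (obs G P b)).continuous.comp u.continuous).continuousAt
    have c2 : ContinuousAt (fun s' => obs G P a (u s')) s :=
      ((obs G P a).continuous.comp u.continuous).continuousAt
    exact (c1.ne_iff_eventually_ne c2).1 (hno β)
  filter_upwards [hm.near_s, near_interior h0 h1, e2] with s' h2 h3 h4
  exact ⟨s', h2.1, h3.1, h3.2, (h2.2.2 a b).1 hab, h4, rfl⟩

/-! ### The nodes at rest -/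

/-- equal local states, up to an input isomorphism -/
def Eqv (G : Network N A S K Z) (P : Z → Type) [∀ τ, NormedAddCommGroup (P τ)]
    [∀ τ, NormedSpace ℝ (P τ)] (X : G.State P) (c d : N) : Prop :=
  ∃ β : G.InputIso c d, pull P β (obs G P d X) = obs G P c X

lemma Eqv.refl' (X : G.State P) (c : N) : Eqv G P X c c := ⟨idIso c, pull_id P c _⟩

lemma Eqv.symm' {X : G.State P} {c d : N} (hE : Eqv G P X c d) : Eqv G P X d c := by
  obtain ⟨β, hβ⟩ := hE
  exact ⟨symmIso β, (pull_symm P β _ _).2 hβ⟩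

lemma Eqv.trans' {X : G.State P} {c d b : N} (hE : Eqv G P X c d) (hE' : Eqv G P X d b) :
    Eqv G P X c b := by
  obtain ⟨β, hβ⟩ := hE
  obtain ⟨γ, hγ⟩ := hE'
  exact ⟨compIso β γ, by rw [pull_comp, hγ, hβ]⟩

lemma Eqv.ty {X : G.State P} {c d : N} (hE : Eqv G P X c d) : G.space c = G.space d :=
  hE.choose.sameSpace

lemma Eqv.same {X : G.State P} {c d : N} (hE : Eqv G P X c d) : Same (X c) (X d) := by
  obtain ⟨β, hβ⟩ := hE
  exact ((pull_eq_iff P β _ _).1 hβ).1

lemma Eqv.zero {X : G.State P} (hadm : IsAdmissible G P sm h) {c d : N} (hE : Eqv G P X c d)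
    (hc : h X c = 0) : h X d = 0 := by
  obtain ⟨β, hβ⟩ := hE
  have := adm_same P hadm β X X hβ
  rw [same_iff β.sameSpace, hc, map_zero] at this
  exact this.symm

open Classical in
/-- indicator of a class -/
def ind (X : G.State P) (a : N) (v : P (G.space a)) : G.State P :=
  fun c => if hE : Eqv G P X a c then tr P hE.ty v else 0

lemma ind_pos {X : G.State P} {a c : N} (v : P (G.space a)) (hE : Eqv G P X a c) :
    ind X a v c = tr P hE.ty v := dif_pos hE

lemma ind_neg {X : G.State P} {a c : N} (v : P (G.space a)) (hE : ¬ Eqv G P X a c) :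
    ind X a v c = 0 := dif_neg hE

/-- a small kick is a multiple of the indicator -/
lemma exists_gk_eq (X : G.State P) (a : N) (v : P (G.space a)) :
    ∃ (r : ℝ) (hr : 0 < r) (k : ℝ), 1 ≤ k ∧ gk (obs G P a X) hr v X = k • ind X a v := by
  classical
  have e1 : ∀ᶠ r in 𝓝[>] (0:ℝ), ∀ c : N, ∀ β : G.InputIso a c,
      pull P β (obs G P c X) ≠ obs G P a X → r ≤ dist (pull P β (obs G P c X)) (obs G P a X) := by
    rw [eventually_all]
    intro c
    rw [eventually_all]
    intro β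
    by_cases hE : pull P β (obs G P c X) = obs G P a X
    · exact Eventually.of_forall fun r hn => absurd hE hn
    · filter_upwards [nhdsWithin_le_nhds (gt_mem_nhds (dist_pos.2 hE))] with r hr _
      exact le_of_lt hr
  obtain ⟨r, hr', hr⟩ := (e1.and self_mem_nhdsWithin).exists
  have hr : 0 < r := hr
  have hb : ∀ c : N, ∀ β : G.InputIso a c, (bmp (obs G P a X) hr) (pull P β (obs G P c X)) =
      if pull P β (obs G P c X) = obs G P a X then (1:ℝ) else 0 := by
    intro c β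
    split_ifs with hE
    · rw [hE, bmp_self]
    · exact bmp_far _ _ hr (hr' c β hE)
  refine ⟨r, hr, ∑ β : G.InputIso a a,
    (if pull P β (obs G P a X) = obs G P a X then (1:ℝ) else 0), ?_, ?_⟩
  · calc (1:ℝ) = if pull P (idIso a) (obs G P a X) = obs G P a X then (1:ℝ) else 0 := by
          rw [pull_id, if_pos rfl]
      _ ≤ _ := Finset.single_le_sum
          (f := fun β : G.InputIso a a => if pull P β (obs G P a X) = obs G P a X then (1:ℝ) else 0)
          (fun β _ => by positivity) (Finset.mem_univ (idIso a))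
  · funext c
    rw [gk_apply, Pi.smul_apply]
    by_cases hE : Eqv G P X a c
    · rw [ind_pos v hE]
      obtain ⟨γ, hγ⟩ := hE
      rw [← (compEquiv a γ).sum_comp, Finset.sum_smul]
      refine Finset.sum_congr rfl fun β _ => ?_
      rw [hb]
      have e2 : pull P (compEquiv a γ β) (obs G P c X) = pull P β (obs G P a X) := by
        rw [← hγ, ← pull_comp]; rfl
      rw [e2]
    · rw [ind_neg v hE, smul_zero]
      refine Finset.sum_eq_zero fun β _ => ?_
      rw [hb, if_neg fun h' => hE ⟨β, h'⟩, zero_smul]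

lemma fderiv_local (hadm : IsAdmissible G P sm h) {c : N} (X w w' : G.State P)
    (hw : obs G P c w = obs G P c w') : fderiv ℝ h X w c = fderiv ℝ h X w' c := by
  have h1 : HasFDerivAt h (fderiv ℝ h X) X := (hadm.1.differentiable one_ne_zero X).hasFDerivAt
  have h2 : HasDerivAt (fun t : ℝ => h (X + t • (w - w'))) (fderiv ℝ h X (w - w')) 0 := by
    have e1 : HasDerivAt (fun t : ℝ => X + t • (w - w')) (w - w') 0 := by
      have := ((hasDerivAt_id (0:ℝ)).smul_const (w - w')).const_add X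
      simpa using this
    have e2 : HasFDerivAt h (fderiv ℝ h X) (X + (0:ℝ) • (w - w')) := by
      rw [zero_smul, add_zero]; exact h1
    exact e2.comp_hasDerivAt 0 e1
  have h3 : HasDerivAt (fun t : ℝ => h (X + t • (w - w')) c) 0 0 := by
    refine (hasDerivAt_const (0:ℝ) (h X c)).congr_of_eventuallyEq (Eventually.of_forall fun t => ?_)
    refine adm_local P hadm _ _ ?_
    rw [map_add, map_smul, map_sub, hw, sub_self, smul_zero, add_zero]
  have h4 := (hasDerivAt_pi.1 h2 c).unique h3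
  rw [map_sub, Pi.sub_apply, sub_eq_zero] at h4
  exact h4

end Pool.Agent.L5helper76.Sync
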