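import Mathlib

/-! # Networks, admissible vector fields, synchrony patterns of periodic orbits -/

namespace Pool.Agent.L5helper76.Sync

/-- A network with the node set `N` and the arrow set `A`. Two nodes (two arrows) have equal type if
they have the same value of `nodeType` (of `arrowType`). Arrows of equal type have heads of equal type
and tails of equal type. The label `space c` tells the state space of the node `c`; nodes of equal
type have the same state space (nodes of different types may or may not have the same state space). -/
structure Network (N A S K Z : Type) where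
  head : A → N
  tail : A → N
  nodeType : N → S
  arrowType : A → K
  space : N → Z
  head_type : ∀ a b, arrowType a = arrowType b → nodeType (head a) = nodeType (head b)
  tail_type : ∀ a b, arrowType a = arrowType b → nodeType (tail a) = nodeType (tail b)
  space_type : ∀ c d, nodeType c = nodeType d → space c = space d

variable {N A S K Z : Type}

/-- The set `I(c)` of the arrows with head `c`. -/
abbrev Network.Inputs (G : Network N A S K Z) (c : N) : Type := {e : A // G.head e = c}

/-- An input isomorphism between two nodes of equal type: a bijection `I(c) → I(d)` which preserves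
the types of the arrows. -/
structure Network.InputIso (G : Network N A S K Z) (c d : N) where
  sameType : G.nodeType c = G.nodeType d
  map : G.Inputs c ≃ G.Inputs d
  arrow : ∀ e, G.arrowType (map e).1 = G.arrowType e.1

/-- The phase space: the node `c` has the state space `P (space c)`. -/
abbrev Network.State (G : Network N A S K Z) (P : Z → Type) : Type := ∀ c : N, P (G.space c)

/-- The state of a node `c` together with the states at the tails of the arrows in `I(c)`. -/
abbrev Network.Local (G : Network N A S K Z) (P : Z → Type) (c : N) : Type :=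
  P (G.space c) × (∀ e : G.Inputs c, P (G.space (G.tail e.1)))

/-- Two states of two nodes are the same: the nodes have the same state space, and the states in it
are equal. -/
def Same {P : Z → Type} {τ σ : Z} (a : P τ) (b : P σ) : Prop :=
  (⟨τ, a⟩ : Σ ρ, P ρ) = ⟨σ, b⟩

/-- `f_c (x)` is the value of `F c` at `x_c` and the states at the tails of the arrows in `I(c)`. -/
def Represents (G : Network N A S K Z) (P : Z → Type) (F : ∀ c, G.Local P c → P (G.space c))
    (f : G.State P → G.State P) : Prop :=
  ∀ x c, f x c = F c (x c, fun e => x (G.tail e.1))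

/-- For every input isomorphism `β : I(c) → I(d)` the function `F d` is obtained from `F c` by
relabelling the tail variables by `β`. -/
def Invariant (G : Network N A S K Z) (P : Z → Type) (F : ∀ c, G.Local P c → P (G.space c)) :
    Prop :=
  ∀ c d, ∀ β : G.InputIso c d, ∀ (z : G.Local P c) (w : G.Local P d),
    Same z.1 w.1 → (∀ e, Same (z.2 e) (w.2 (β.map e))) → Same (F c z) (F d w)

section

variable [Fintype N] [DecidableEq N] [Fintype A] (G : Network N A S K Z) (P : Z → Type)
  [∀ τ, NormedAddCommGroup (P τ)] [∀ τ, NormedSpace ℝ (P τ)]

/-- The functions `F c` are `C¹`. -/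
def IsC1Family (F : ∀ c, G.Local P c → P (G.space c)) : Prop := ∀ c, ContDiff ℝ 1 (F c)

/-- Admissible `C¹` vector fields: `f` is `C¹`, and `f_c (x)` is a function `F c` of `x_c` and of the
states at the tails of the arrows in `I(c)`; for every input isomorphism `β : I(c) → I(d)` the function
`F d` is obtained from `F c` by relabelling the tail variables by `β`. If `sm` is true, then the
functions `F c` are required to be `C¹` on the whole space of the local states of `c`; if `sm` is false,
they are not. -/
def IsAdmissible (sm : Prop) (f : G.State P → G.State P) : Prop :=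
  ContDiff ℝ 1 f ∧ ∃ F : ∀ c, G.Local P c → P (G.space c),
    (sm → IsC1Family G P F) ∧ Represents G P F f ∧ Invariant G P F

end

section

variable {E : Type} [NormedAddCommGroup E] [NormedSpace ℝ E]

/-- `x` is a periodic orbit of `x' = f (x)`, and `T > 0` is a period: a nonconstant solution with
`x (t + T) = x t`. -/
structure IsPeriodicOrbit (f : E → E) (x : ℝ → E) (T : ℝ) : Prop where
  pos : 0 < T
  deriv : ∀ t, HasDerivAt x (f (x t)) t
  periodic : ∀ t, x (t + T) = x t
  nonconst : ∃ t, x t ≠ x 0

/-- `Y` is the fundamental solution of the variational equation of `x' = f (x)` along `x`: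
`Y 0 = 1`, `Y' = Df (x t) Y`. -/
def IsFundamental (f : E → E) (x : ℝ → E) (Y : ℝ → E →L[ℝ] E) : Prop :=
  Y 0 = 1 ∧ ∀ t, HasDerivAt Y ((fderiv ℝ f (x t)).comp (Y t)) t

/-- The only eigenvalue of `L` on the unit circle is `1`, and it is simple. -/
def SimpleOne [FiniteDimensional ℝ E] (L : E →ₗ[ℝ] E) : Prop :=
  L.charpoly.rootMultiplicity 1 = 1 ∧
    ∀ μ : ℂ, ‖μ‖ = 1 → Polynomial.aeval μ L.charpoly = 0 → μ = 1

/-- The periodic orbit `x` with period `T` is hyperbolic: its Floquet multipliers are the eigenvalues
of `Y T`, where `Y' = Df (x t) Y`, `Y 0 = 1`; the only multiplier on the unit circle is `1`, and it is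
simple. -/
def IsHyperbolic [FiniteDimensional ℝ E] (f : E → E) (x : ℝ → E) (T : ℝ) : Prop :=
  ∃ Y : ℝ → E →L[ℝ] E, IsFundamental f x Y ∧ SimpleOne (Y T : E →ₗ[ℝ] E)

/-- The vector fields `f'` and `f` are `δ`-close in the uniform `C¹` norm. -/
def C1Close (f' f : E → E) (δ : ℝ) : Prop :=
  ∀ y, ‖f' y - f y‖ < δ ∧ ‖fderiv ℝ f' y - fderiv ℝ f y‖ < δ

/-- The curves `x'` with the period `T'` and `x` with the period `T` are `δ`-close. -/
def OrbitClose (x' x : ℝ → E) (T' T δ : ℝ) : Prop :=
  |T' - T| < δ ∧ ∀ s ∈ Set.Icc (0 : ℝ) 1, ‖x' (T' * s) - x (T * s)‖ < δ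

end

/-- The synchrony pattern of `x`: the nodes `c` and `d` have the same state space, and
`x_c (t) = x_d (t)` for all `t`. -/
def Pattern (G : Network N A S K Z) {P : Z → Type} (x : ℝ → G.State P) (c d : N) : Prop :=
  ∀ t, Same (x t c) (x t d)

/-- A relation between the nodes is balanced: related nodes are related by an input isomorphism
such that the tails of corresponding arrows are related. -/
def IsBalanced (G : Network N A S K Z) (r : N → N → Prop) : Prop :=
  ∀ c d, r c d → ∃ β : G.InputIso c d, ∀ e, r (G.tail e.1) (G.tail (β.map e).1)

section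

variable [Fintype N] [DecidableEq N] [Fintype A] (G : Network N A S K Z) (P : Z → Type)
  [∀ τ, NormedAddCommGroup (P τ)] [∀ τ, NormedSpace ℝ (P τ)]

/-- The synchrony pattern of the periodic orbit `x` of `f` (with period `T`) is rigid: for every
admissible `f'` which is sufficiently `C¹`-close to `f`, the periodic orbits `x'` of `f'` sufficiently
close to `x` (with a period `T'` close to `T`) satisfy `x'_c = x'_d` whenever `x_c = x_d`. -/
def IsRigid (sm : Prop) (f : G.State P → G.State P) (x : ℝ → G.State P) (T : ℝ) : Prop :=
  ∃ δ : ℝ, 0 < δ ∧ ∀ (f' : G.State P → G.State P) (x' : ℝ → G.State P) (T' : ℝ),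
    IsAdmissible G P sm f' → C1Close f' f δ → IsPeriodicOrbit f' x' T' →
    OrbitClose x' x T' T δ → ∀ c d, Pattern G x c d → Pattern G x' c d

end

end Pool.Agent.L5helper76.Sync
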