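import Pool.Agent.L5helper76.Sync.Resp

/-! Localized kicks: only finitely many local states allow an `L¹`-bound. -/

open Topology Filter Set MeasureTheory
open Pool.Agent.GR.Flow (volt cst cst_apply ext continuous_ext ext_of_mem norm_ext_le volt_apply
  volt_norm_le)

noncomputable section

namespace Pool.Agent.L5helper76.Sync

variable {N A S K Z : Type} [Fintype N] [DecidableEq N] [Fintype A] {G : Network N A S K Z}
  {P : Z → Type} [∀ τ, NormedAddCommGroup (P τ)] [∀ τ, NormedSpace ℝ (P τ)]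
  [∀ τ, FiniteDimensional ℝ (P τ)]
variable {sm : Prop} {f : G.State P → G.State P} {x0 : ℝ → G.State P} {u0 : C(unitInterval, G.State P)}
  {T0 δ : ℝ} {h : G.State P → G.State P} {u : C(unitInterval, G.State P)} {T : ℝ}

/-- bump function around `z` of radius `r` -/
def bmp {a : N} (z : G.Local P a) {r : ℝ} (hr : 0 < r) : ContDiffBump z :=
  ⟨r / 2, r, half_pos hr, half_lt_self hr⟩

lemma bmp_self {a : N} (z : G.Local P a) {r : ℝ} (hr : 0 < r) : bmp z hr z = 1 :=
  (bmp z hr).one_of_mem_closedBall (Metric.mem_closedBall_self (half_pos hr).le)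

lemma bmp_far {a : N} (z w : G.Local P a) {r : ℝ} (hr : 0 < r) (hw : r ≤ dist w z) :
    bmp z hr w = 0 := (bmp z hr).zero_of_le_dist hw

/-- localized admissible field -/
def gk {a : N} (z : G.Local P a) {r : ℝ} (hr : 0 < r) (v : P (G.space a)) :
    G.State P → G.State P := kick P a (bmp z hr) v

lemma gk_adm {a : N} (z : G.Local P a) {r : ℝ} (hr : 0 < r) (v : P (G.space a)) :
    IsAdmissible G P sm (gk z hr v) := kick_adm P a _ (bmp z hr).contDiff v

lemma gk_bdd {a : N} (z : G.Local P a) {r : ℝ} (hr : 0 < r) (v : P (G.space a)) :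
    ∃ B : ℝ, 0 ≤ B ∧ ∀ x, ‖gk z hr v x‖ ≤ B ∧ ‖fderiv ℝ (gk z hr v) x‖ ≤ B :=
  kick_bdd P a _ (bmp z hr).contDiff (bmp z hr).hasCompactSupport v

lemma gk_apply {a : N} (z : G.Local P a) {r : ℝ} (hr : 0 < r) (v : P (G.space a))
    (x : G.State P) (c : N) : gk z hr v x c =
      ∑ β : G.InputIso a c, (bmp z hr) (pull P β (obs G P c x)) • tr P β.sameSpace v := rfl

lemma norm_gk_self {a : N} (z : G.Local P a) {r : ℝ} (hr : 0 < r) (v : P (G.space a))
    (x : G.State P) (hx : obs G P a x = z) : ‖v‖ ≤ ‖gk z hr v x a‖ := by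
  have h1 : gk z hr v x a = (∑ β : G.InputIso a a, (bmp z hr) (pull P β (obs G P a x))) • v := by
    rw [gk_apply, Finset.sum_smul]
    refine Finset.sum_congr rfl fun β _ => ?_
    rw [tr_rfl]
  have h2 : 1 ≤ ∑ β : G.InputIso a a, (bmp z hr) (pull P β (obs G P a x)) := by
    calc (1:ℝ) = (bmp z hr) (pull P (idIso a) (obs G P a x)) := by
          rw [pull_id, hx, bmp_self]
      _ ≤ _ := Finset.single_le_sum
          (f := fun β : G.InputIso a a => (bmp z hr) (pull P β (obs G P a x)))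
          (fun β _ => (bmp z hr).nonneg) (Finset.mem_univ (idIso a))
  rw [h1, norm_smul, Real.norm_eq_abs, abs_of_nonneg (by linarith)]
  nlinarith [norm_nonneg v]

lemma norm_gk_le {a : N} (z : G.Local P a) {r : ℝ} (hr : 0 < r) (v : P (G.space a))
    (x : G.State P) : ‖gk z hr v x‖ ≤
      ‖v‖ * ∑ c : N, ∑ β : G.InputIso a c, (bmp z hr) (pull P β (obs G P c x)) := by
  have h0 : ∀ c : N, 0 ≤ ∑ β : G.InputIso a c, (bmp z hr) (pull P β (obs G P c x)) :=
    fun c => Finset.sum_nonneg fun β _ => (bmp z hr).nonneg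
  rw [pi_norm_le_iff_of_nonneg (mul_nonneg (norm_nonneg _) (Finset.sum_nonneg fun c _ => h0 c))]
  intro c
  calc ‖gk z hr v x c‖ ≤ ∑ β : G.InputIso a c, (bmp z hr) (pull P β (obs G P c x)) * ‖v‖ := by
        rw [gk_apply]
        refine norm_sum_le_of_le _ fun β _ => ?_
        rw [norm_smul, norm_tr, Real.norm_eq_abs, abs_of_nonneg (bmp z hr).nonneg]
    _ = ‖v‖ * ∑ β : G.InputIso a c, (bmp z hr) (pull P β (obs G P c x)) := by
        rw [← Finset.sum_mul, mul_comm]
    _ ≤ _ := by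
        gcongr
        exact Finset.single_le_sum
          (f := fun c => ∑ β : G.InputIso a c, (bmp z hr) (pull P β (obs G P c x)))
          (fun c _ => h0 c) (Finset.mem_univ c)

lemma sum_bmp_le {a : N} (F : Finset (G.Local P a)) {r : ℝ} (hr : 0 < r)
    (hF : ∀ z ∈ F, ∀ z' ∈ F, z ≠ z' → 2 * r ≤ dist z z') (w : G.Local P a) :
    ∑ z ∈ F, (bmp z hr) w ≤ 1 := by
  by_cases h : ∃ z ∈ F, dist w z < r
  · obtain ⟨z, hz, hzw⟩ := h
    rw [Finset.sum_eq_single z]
    · exact (bmp z hr).le_one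
    · intro z' hz' hne
      refine bmp_far z' w hr ?_
      have h1 := hF z hz z' hz' hne.symm
      have h2 := dist_triangle z w z'
      rw [dist_comm z w] at h2
      linarith
    · intro hn; exact absurd hz hn
  · push Not at h
    rw [Finset.sum_eq_zero fun z hz => bmp_far z w hr (h z hz)]
    exact zero_le_one

lemma continuous_gk_ext {a : N} (z : G.Local P a) {r : ℝ} (hr : 0 < r) (v : P (G.space a))
    (u : C(unitInterval, G.State P)) : Continuous fun ρ => ‖gk z hr v (ext u ρ)‖ :=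
  ((gk_adm (sm := True) z hr v).1.continuous.comp (continuous_ext u)).norm

theorem finite_values {a : N} (v : P (G.space a)) (hv : v ≠ 0)
    (u : C(unitInterval, G.State P)) (V : Set (G.Local P a)) (C : ℝ) (hC : 0 ≤ C)
    (H : ∀ z ∈ V, ∃ r0 : ℝ, 0 < r0 ∧ ∀ (r : ℝ) (hr : 0 < r), r < r0 →
      ‖v‖ ≤ C * ∫ ρ in (0:ℝ)..1, ‖gk z hr v (ext u ρ)‖) : V.Finite := by
  by_contra hinf
  have hinf : V.Infinite := hinf
  set k : ℝ := ∑ c : N, ∑ β : G.InputIso a c, (1:ℝ) with hk
  obtain ⟨n, hn⟩ := exists_nat_gt (C * k)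
  obtain ⟨F, hFV, hFn⟩ := hinf.exists_subset_card_eq n
  choose! r0 hr0 hr0' using H
  have e1 : ∀ᶠ r in 𝓝[>] (0:ℝ), ∀ z ∈ F, r < r0 z := by
    rw [eventually_all_finset]
    intro z hz
    exact nhdsWithin_le_nhds (gt_mem_nhds (hr0 z (hFV hz)))
  have e2 : ∀ᶠ r in 𝓝[>] (0:ℝ), ∀ z ∈ F, ∀ z' ∈ F, z ≠ z' → 2 * r ≤ dist z z' := by
    rw [eventually_all_finset]
    intro z hz
    rw [eventually_all_finset]
    intro z' hz'
    by_cases hne : z = z'
    · exact Eventually.of_forall fun r hn => absurd hne hn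
    · have hd : 0 < dist z z' / 2 := half_pos (dist_pos.2 hne)
      filter_upwards [nhdsWithin_le_nhds (gt_mem_nhds hd)] with r hr _
      linarith
  obtain ⟨r, ⟨h1, h2⟩, hr⟩ := ((e1.and e2).and self_mem_nhdsWithin).exists
  have hr : 0 < r := hr
  have h3 : ∑ z ∈ F, ‖v‖ ≤ ∑ z ∈ F, C * ∫ ρ in (0:ℝ)..1, ‖gk z hr v (ext u ρ)‖ :=
    Finset.sum_le_sum fun z hz => hr0' z (hFV hz) r hr (h1 z hz)
  have h4 : ∑ z ∈ F, C * ∫ ρ in (0:ℝ)..1, ‖gk z hr v (ext u ρ)‖ =
      C * ∫ ρ in (0:ℝ)..1, ∑ z ∈ F, ‖gk z hr v (ext u ρ)‖ := by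
    rw [← Finset.mul_sum, intervalIntegral.integral_finsetSum]
    intro z _
    exact (continuous_gk_ext z hr v u).intervalIntegrable _ _
  have h5 : ∫ ρ in (0:ℝ)..1, ∑ z ∈ F, ‖gk z hr v (ext u ρ)‖ ≤ ∫ ρ in (0:ℝ)..1, ‖v‖ * k := by
    refine intervalIntegral.integral_mono_on zero_le_one
      ((continuous_finsetSum _ fun z _ => continuous_gk_ext z hr v u).intervalIntegrable _ _)
      (by simp) fun ρ _ => ?_
    calc ∑ z ∈ F, ‖gk z hr v (ext u ρ)‖
        ≤ ∑ z ∈ F, ‖v‖ * ∑ c : N, ∑ β : G.InputIso a c,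
          (bmp z hr) (pull P β (obs G P c (ext u ρ))) :=
          Finset.sum_le_sum fun z _ => norm_gk_le z hr v _
      _ = ‖v‖ * ∑ c : N, ∑ β : G.InputIso a c, ∑ z ∈ F,
          (bmp z hr) (pull P β (obs G P c (ext u ρ))) := by
          rw [← Finset.mul_sum, Finset.sum_comm]
          congr 1
          refine Finset.sum_congr rfl fun c _ => ?_
          rw [Finset.sum_comm]
      _ ≤ ‖v‖ * k := by
          gcongr
          exact Finset.sum_le_sum fun c _ => Finset.sum_le_sum fun β _ => sum_bmp_le F hr h2 _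
  rw [intervalIntegral.integral_const, sub_zero, one_smul] at h5
  rw [h4, Finset.sum_const, hFn, nsmul_eq_mul] at h3
  have h6 : (n:ℝ) * ‖v‖ ≤ C * (‖v‖ * k) := h3.trans (by gcongr)
  have hv' : 0 < ‖v‖ := norm_pos_iff.2 hv
  nlinarith

/-- a continuous curve with finitely many values is locally constant -/
lemma const_of_finite {a : N} (u : C(unitInterval, G.State P)) (s : unitInterval)
    (V : Set (G.Local P a)) (hV : V.Finite)
    (h : ∀ᶠ s' in 𝓝 s, obs G P a (u s') ∈ V) :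
    ∀ᶠ r in 𝓝 (s:ℝ), obs G P a (ext u r) = obs G P a (u s) := by
  have h1 := eventually_real h
  obtain ⟨ρ, hρ, hball⟩ := Metric.eventually_nhds_iff_ball.1 h1
  have hpre : IsPreconnected ((fun r => obs G P a (ext u r)) '' Metric.ball (s:ℝ) ρ) := by
    refine IsPreconnected.image ?_ _ ?_
    · exact (convex_ball _ _).isPreconnected
    · exact ((obs G P a).continuous.comp (continuous_ext u)).continuousOn
  have hfin : ((fun r => obs G P a (ext u r)) '' Metric.ball (s:ℝ) ρ).Finite := by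
    refine hV.subset ?_
    rintro _ ⟨r, hr, rfl⟩
    exact hball r hr
  have hsub : ((fun r => obs G P a (ext u r)) '' Metric.ball (s:ℝ) ρ).Subsingleton := by
    by_contra hns
    rw [Set.not_subsingleton_iff] at hns
    exact hpre.infinite_of_nontrivial hns hfin
  filter_upwards [Metric.ball_mem_nhds (s:ℝ) hρ] with r hr
  have e : ext u s = u s := by rw [ext_of_mem u s.2]
  rw [← e]
  exact hsub ⟨r, hr, rfl⟩ ⟨s, Metric.mem_ball_self hρ, rfl⟩

/-- If the local state of `a` is locally constant, `a` and the tails of its inputs are at rest. -/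
lemma rest_of_const (hG : Good G P sm f x0 u0 T0 δ h u T) {s : unitInterval} (h0 : (0:ℝ) < s)
    (h1 : (s:ℝ) < 1) {a : N}
    (hc : ∀ᶠ r in 𝓝 (s:ℝ), obs G P a (ext u r) = obs G P a (u s)) :
    h (u s) a = 0 ∧ ∀ e : G.Inputs a, h (u s) (G.tail e.1) = 0 := by
  have hd := hasDerivAt_ext hG h0 h1
  have key : ∀ c : N, (∀ᶠ r in 𝓝 (s:ℝ), ext u r c = u s c) → h (u s) c = 0 := by
    intro c hcc
    have h2 := hasDerivAt_pi.1 hd c
    have h3 : HasDerivAt (fun r => ext u r c) 0 (s:ℝ) :=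
      (hasDerivAt_const (s:ℝ) (u s c)).congr_of_eventuallyEq hcc
    have h4 := h2.unique h3
    simp only [Pi.smul_apply] at h4
    exact (smul_eq_zero.1 h4).resolve_left hG.Tpos.ne'
  refine ⟨key a ?_, fun e => key _ ?_⟩
  · filter_upwards [hc] with r hr
    exact congrArg Prod.fst hr
  · filter_upwards [hc] with r hr
    exact congrFun (congrArg Prod.snd hr) e

end Pool.Agent.L5helper76.Sync
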