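import Pool.Agent.L5helper76.Sync.Kick

/-! The set of the good perturbations, and the maximal points. -/

open Topology Filter Set MeasureTheory
open Pool.Agent.GR.Flow (volt cst cst_apply ext continuous_ext ext_of_mem norm_ext_le volt_apply
  volt_norm_le)

noncomputable section

namespace Pool.Agent.L5helper76.Sync

variable {N A S K Z : Type} [Fintype N] [DecidableEq N] [Fintype A] (G : Network N A S K Z)
  (P : Z → Type) [∀ τ, NormedAddCommGroup (P τ)] [∀ τ, NormedSpace ℝ (P τ)]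
  [∀ τ, FiniteDimensional ℝ (P τ)]

structure Good (sm : Prop) (f : G.State P → G.State P) (x0 : ℝ → G.State P)
    (u0 : C(unitInterval, G.State P)) (T0 δ : ℝ) (h : G.State P → G.State P)
    (u : C(unitInterval, G.State P)) (T : ℝ) : Prop where
  adm : IsAdmissible G P sm h
  near : ∃ δ' < δ, ∀ y, ‖h y - f y‖ ≤ δ' ∧ ‖fderiv ℝ h y - fderiv ℝ f y‖ ≤ δ'
  Tpos : 0 < T
  Tnear : |T - T0| < δ
  unear : ‖u - u0‖ < δ
  sol : Sol (cm h adm.1) u T
  inv : ∃ ℓ, (LinAt h adm.1 (u, T) ℓ).IsInvertible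
  nonconst : ∃ s, u s ≠ u 0
  pat : ∀ c d, ¬ Pattern G x0 c d → ∃ s, ¬ Same (u s c) (u s d)

variable {G P} {sm : Prop}
variable {f : G.State P → G.State P} {x0 : ℝ → G.State P} {u0 : C(unitInterval, G.State P)}
  {T0 δ : ℝ} {h : G.State P → G.State P} {u : C(unitInterval, G.State P)} {T : ℝ}

omit [Fintype N] [DecidableEq N] [Fintype A] [∀ τ, FiniteDimensional ℝ (P τ)] in
lemma not_same_eventually {X : Type*} [TopologicalSpace X] {α : X → G.State P} {p : X}
    (hα : ContinuousAt α p) {c d : N} (hn : ¬ Same (α p c) (α p d)) :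
    ∀ᶠ q in 𝓝 p, ¬ Same (α q c) (α q d) := by
  by_cases ht : G.space c = G.space d
  · rw [same_iff ht] at hn
    have hc1 : ContinuousAt (fun q => tr P ht (α q c)) p :=
      (tr P ht).continuous.continuousAt.comp ((continuous_apply c).continuousAt.comp hα)
    have hc2 : ContinuousAt (fun q => α q d) p := (continuous_apply d).continuousAt.comp hα
    filter_upwards [(hc1.ne_iff_eventually_ne hc2).1 hn] with q hq
    rwa [same_iff ht]
  · exact Eventually.of_forall fun q hs => ht hs.ty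

theorem Good.perturb (hG : Good G P sm f x0 u0 T0 δ h u T) :
    ∃ C : ℝ, 0 ≤ C ∧ ∀ g : G.State P → G.State P, IsAdmissible G P sm g →
      (∃ B : ℝ, 0 ≤ B ∧ ∀ x, ‖g x‖ ≤ B ∧ ‖fderiv ℝ g x‖ ≤ B) →
      ∃ (ξ : ℝ → C(unitInterval, G.State P) × ℝ) (η : C(unitInterval, G.State P) × ℝ),
        ξ 0 = (u, T) ∧ HasDerivAt ξ η 0 ∧ ‖η.1‖ ≤ C * ∫ r in (0:ℝ)..1, ‖g (ext u r)‖ ∧
        ∀ᶠ ε in 𝓝 (0:ℝ), Good G P sm f x0 u0 T0 δ (h + ε • g) (ξ ε).1 (ξ ε).2 := by
  have : CompleteSpace (G.State P) := FiniteDimensional.complete ℝ _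
  obtain ⟨ℓ, hℓ⟩ := hG.inv
  refine ⟨‖(LinAt h hG.adm.1 (u, T) ℓ).inverse‖ * |T|, by positivity, fun g hg hB => ?_⟩
  obtain ⟨B, hB0, hB⟩ := hB
  obtain ⟨δ', hδ', hnear⟩ := hG.near
  have hfg : ∀ ε : ℝ, ContDiff ℝ 1 (h + ε • g) := fun ε => hG.adm.1.add (hg.1.const_smul ε)
  obtain ⟨ξ, hξ0, hξd, hξs, hξi⟩ := L5helper76.Sync.perturb h g hG.adm.1 hg.1 u T hG.sol ℓ hℓ hfg
  have hξc : ContinuousAt ξ 0 := hξd.continuousAt
  have hξ1 : ContinuousAt (fun ε => (ξ ε).1) 0 := continuousAt_fst.comp hξc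
  have hξ2 : ContinuousAt (fun ε => (ξ ε).2) 0 := continuousAt_snd.comp hξc
  have hev : ∀ s : unitInterval, ContinuousAt (fun ε => (ξ ε).1 s) 0 := fun s =>
    (ev s).continuous.continuousAt.comp hξ1
  refine ⟨ξ, _, hξ0, hξd, ?_, ?_⟩
  · refine (norm_fst_le _).trans ((ContinuousLinearMap.le_opNorm _ _).trans ?_)
    rw [mul_assoc]
    gcongr
    have e : ‖(T • volt (G.State P) ((cm g hg.1).comp u), (0:ℝ))‖ =
        ‖T • volt (G.State P) ((cm g hg.1).comp u)‖ := by
      rw [Prod.norm_mk, norm_zero]; exact max_eq_left (norm_nonneg _)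
    rw [e, norm_smul, Real.norm_eq_abs]
    gcongr
    exact norm_volt_le _
  · have e1 : ∀ᶠ ε in 𝓝 (0:ℝ), |ε| * B < δ - δ' := by
      have : Tendsto (fun ε : ℝ => |ε| * B) (𝓝 0) (𝓝 (|0| * B)) :=
        (continuous_abs.tendsto 0).mul_const B
      rw [abs_zero, zero_mul] at this
      exact this.eventually (gt_mem_nhds (by linarith))
    have e2 : ∀ᶠ ε in 𝓝 (0:ℝ), 0 < (ξ ε).2 := by
      refine hξ2.eventually (lt_mem_nhds ?_)
      simp only [hξ0]; exact hG.Tpos
    have e3 : ∀ᶠ ε in 𝓝 (0:ℝ), |(ξ ε).2 - T0| < δ := by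
      have : ContinuousAt (fun ε => |(ξ ε).2 - T0|) 0 := (hξ2.sub continuousAt_const).abs
      refine this.eventually (gt_mem_nhds ?_)
      simp only [hξ0]; exact hG.Tnear
    have e4 : ∀ᶠ ε in 𝓝 (0:ℝ), ‖(ξ ε).1 - u0‖ < δ := by
      have : ContinuousAt (fun ε => ‖(ξ ε).1 - u0‖) 0 := (hξ1.sub continuousAt_const).norm
      refine this.eventually (gt_mem_nhds ?_)
      simp only [hξ0]; exact hG.unear
    have e5 : ∀ᶠ ε in 𝓝 (0:ℝ), ∃ s, (ξ ε).1 s ≠ (ξ ε).1 0 := by
      obtain ⟨s, hs⟩ := hG.nonconst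
      have : (ξ 0).1 s ≠ (ξ 0).1 0 := by rw [hξ0]; exact hs
      filter_upwards [((hev s).ne_iff_eventually_ne (hev 0)).1 this] with ε hε
      exact ⟨s, hε⟩
    have e6 : ∀ᶠ ε in 𝓝 (0:ℝ), ∀ c d, ¬ Pattern G x0 c d →
        ∃ s, ¬ Same ((ξ ε).1 s c) ((ξ ε).1 s d) := by
      rw [eventually_all]
      intro c
      rw [eventually_all]
      intro d
      by_cases hp : Pattern G x0 c d
      · exact Eventually.of_forall fun ε hn => absurd hp hn
      · obtain ⟨s, hs⟩ := hG.pat c d hp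
        have hs' : ¬ Same ((ξ 0).1 s c) ((ξ 0).1 s d) := by rw [hξ0]; exact hs
        filter_upwards [not_same_eventually (hev s) hs'] with ε hε _
        exact ⟨s, hε⟩
    filter_upwards [hξs, hξi, e1, e2, e3, e4, e5, e6] with ε h1 h2 h3 h4 h5 h6 h7 h8
    refine ⟨adm_add P hG.adm hg ε, ⟨δ' + |ε| * B, by linarith, fun y => ⟨?_, ?_⟩⟩, h4, h5, h6, h1,
      ⟨ℓ, h2⟩, h7, h8⟩
    · calc ‖(h + ε • g) y - f y‖ = ‖(h y - f y) + ε • g y‖ := by
            congr 1
            simp only [Pi.add_apply, Pi.smul_apply]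
            abel
        _ ≤ ‖h y - f y‖ + ‖ε • g y‖ := norm_add_le _ _
        _ ≤ δ' + |ε| * B := by
            rw [norm_smul, Real.norm_eq_abs]
            gcongr
            · exact (hnear y).1
            · exact (hB y).1
    · have e : fderiv ℝ (h + ε • g) y = fderiv ℝ h y + ε • fderiv ℝ g y := by
        rw [fderiv_add (hG.adm.1.differentiable one_ne_zero y)
          ((hg.1.differentiable one_ne_zero y).const_smul ε), fderiv_const_smul
          (hg.1.differentiable one_ne_zero y)]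
      calc ‖fderiv ℝ (h + ε • g) y - fderiv ℝ f y‖ =
            ‖(fderiv ℝ h y - fderiv ℝ f y) + ε • fderiv ℝ g y‖ := by
            rw [e]; congr 1; abel
        _ ≤ ‖fderiv ℝ h y - fderiv ℝ f y‖ + ‖ε • fderiv ℝ g y‖ := norm_add_le _ _
        _ ≤ δ' + |ε| * B := by
            rw [norm_smul, Real.norm_eq_abs]
            gcongr
            · exact (hnear y).2
            · exact (hB y).2

open Classical in
/-- the moving nodes at the time `s` -/
def mov (h : G.State P → G.State P) (u : C(unitInterval, G.State P)) (s : unitInterval) :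
    Finset N := Finset.univ.filter fun c => h (u s) c ≠ 0

open Classical in
/-- the pairs of nodes with different states at the time `s` -/
def dif (u : C(unitInterval, G.State P)) (s : unitInterval) :
    Finset (N × N) := Finset.univ.filter fun p => ¬ Same (u s p.1) (u s p.2)

def cnt (h : G.State P → G.State P) (u : C(unitInterval, G.State P)) (s : unitInterval) : ℕ :=
  (mov h u s).card + (dif u s).card

lemma mem_mov {s : unitInterval} {c : N} : c ∈ mov h u s ↔ h (u s) c ≠ 0 := by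
  simp [mov]

lemma mem_dif {s : unitInterval} {c d : N} : (c, d) ∈ dif u s ↔ ¬ Same (u s c) (u s d) := by
  simp [dif]

variable (G P) in
structure IsMaxPt (sm : Prop) (f : G.State P → G.State P) (x0 : ℝ → G.State P)
    (u0 : C(unitInterval, G.State P)) (T0 δ : ℝ) (h : G.State P → G.State P)
    (u : C(unitInterval, G.State P)) (T : ℝ) (s : unitInterval) : Prop where
  good : Good G P sm f x0 u0 T0 δ h u T
  max : ∀ h' u' T' s', Good G P sm f x0 u0 T0 δ h' u' T' → cnt h' u' s' ≤ cnt h u s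

lemma mov_eventually {X : Type*} [TopologicalSpace X] {β : X → G.State P} {p : X}
    (hα : ContinuousAt β p) :
    ∀ᶠ q in 𝓝 p, ∀ c, β p c ≠ 0 → β q c ≠ 0 := by
  rw [eventually_all]
  intro c
  by_cases hc : β p c = 0
  · exact Eventually.of_forall fun q hn => absurd hc hn
  · have h1 : ContinuousAt (fun q => β q c) p := (continuous_apply c).continuousAt.comp hα
    filter_upwards [h1.eventually_ne hc] with q hq _
    exact hq

lemma dif_eventually {X : Type*} [TopologicalSpace X] {α : X → G.State P} {p : X}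
    (hα : ContinuousAt α p) :
    ∀ᶠ q in 𝓝 p, ∀ c d, ¬ Same (α p c) (α p d) → ¬ Same (α q c) (α q d) := by
  rw [eventually_all]
  intro c
  rw [eventually_all]
  intro d
  by_cases hc : Same (α p c) (α p d)
  · exact Eventually.of_forall fun q hn => absurd hc hn
  · filter_upwards [not_same_eventually hα hc] with q hq _
    exact hq

lemma IsMaxPt.eq_of_sub {s : unitInterval} (hm : IsMaxPt G P sm f x0 u0 T0 δ h u T s)
    {h' : G.State P → G.State P} {u' : C(unitInterval, G.State P)} {T' : ℝ} {s' : unitInterval}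
    (hg : Good G P sm f x0 u0 T0 δ h' u' T')
    (h1 : ∀ c, h (u s) c ≠ 0 → h' (u' s') c ≠ 0)
    (h2 : ∀ c d, ¬ Same (u s c) (u s d) → ¬ Same (u' s' c) (u' s' d)) :
    IsMaxPt G P sm f x0 u0 T0 δ h' u' T' s' ∧ (∀ c, h (u s) c = 0 ↔ h' (u' s') c = 0) ∧
      ∀ c d, Same (u s c) (u s d) ↔ Same (u' s' c) (u' s' d) := by
  have e1 : mov h u s ⊆ mov h' u' s' := fun c hc => mem_mov.2 (h1 c (mem_mov.1 hc))
  have e2 : dif u s ⊆ dif u' s' := fun p hp => by
    obtain ⟨c, d⟩ := p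
    exact mem_dif.2 (h2 c d (mem_dif.1 hp))
  have e3 := hm.max h' u' T' s' hg
  have e4 := Finset.card_le_card e1
  have e5 := Finset.card_le_card e2
  unfold cnt at e3
  have e6 : mov h u s = mov h' u' s' := Finset.eq_of_subset_of_card_le e1 (by omega)
  have e7 : dif u s = dif u' s' := Finset.eq_of_subset_of_card_le e2 (by omega)
  refine ⟨⟨hg, fun h'' u'' T'' s'' hg'' => ?_⟩, fun c => ?_, fun c d => ?_⟩
  · have := hm.max h'' u'' T'' s'' hg''
    unfold cnt at this ⊢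
    rw [← e6, ← e7]
    exact this
  · rw [← not_iff_not, ← ne_eq, ← ne_eq, ← mem_mov, ← mem_mov, e6]
  · rw [← not_iff_not, ← mem_dif, ← mem_dif, e7]

theorem exists_maxPt (hG : Good G P sm f x0 u0 T0 δ h u T) :
    ∃ h' u' T' s', IsMaxPt G P sm f x0 u0 T0 δ h' u' T' s' := by
  set X : Set ℕ := {n | ∃ h' u' T' s', Good G P sm f x0 u0 T0 δ h' u' T' ∧ cnt h' u' s' = n} with hX
  have hne : X.Nonempty := ⟨_, h, u, T, 0, hG, rfl⟩
  have hbd : BddAbove X := by
    refine ⟨Fintype.card N + Fintype.card (N × N), ?_⟩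
    rintro n ⟨h', u', T', s', _, rfl⟩
    exact add_le_add (Finset.card_le_univ _) (Finset.card_le_univ _)
  obtain ⟨h', u', T', s', hg, hs⟩ := Nat.sSup_mem hne hbd
  refine ⟨h', u', T', s', hg, fun h'' u'' T'' s'' hg'' => ?_⟩
  rw [hs]
  exact le_csSup hbd ⟨h'', u'', T'', s'', hg'', rfl⟩

lemma IsMaxPt.near_s {s : unitInterval} (hm : IsMaxPt G P sm f x0 u0 T0 δ h u T s) :
    ∀ᶠ s' in 𝓝 s, IsMaxPt G P sm f x0 u0 T0 δ h u T s' ∧ (∀ c, h (u s) c = 0 ↔ h (u s') c = 0) ∧
      ∀ c d, Same (u s c) (u s d) ↔ Same (u s' c) (u s' d) := by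
  have h1 : ContinuousAt (fun s' => h (u s')) s :=
    (hm.good.adm.1.continuous.comp u.continuous).continuousAt
  have h2 : ContinuousAt (fun s' => u s') s := u.continuous.continuousAt
  filter_upwards [mov_eventually (β := fun s' => h (u s')) h1, dif_eventually h2] with s' e1 e2
  exact hm.eq_of_sub hm.good e1 e2

lemma IsMaxPt.near_eps {s : unitInterval} (hm : IsMaxPt G P sm f x0 u0 T0 δ h u T s)
    {g : G.State P → G.State P} (hg : IsAdmissible G P sm g)
    {ξ : ℝ → C(unitInterval, G.State P) × ℝ} (h0 : ξ 0 = (u, T)) (hc : ContinuousAt ξ 0)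
    (hgood : ∀ᶠ ε in 𝓝 (0:ℝ), Good G P sm f x0 u0 T0 δ (h + ε • g) (ξ ε).1 (ξ ε).2) :
    ∀ᶠ ε in 𝓝 (0:ℝ), IsMaxPt G P sm f x0 u0 T0 δ (h + ε • g) (ξ ε).1 (ξ ε).2 s ∧
      (∀ c, h (u s) c = 0 ↔ (h + ε • g) ((ξ ε).1 s) c = 0) ∧
      ∀ c d, Same (u s c) (u s d) ↔ Same ((ξ ε).1 s c) ((ξ ε).1 s d) := by
  have h2 : ContinuousAt (fun ε => (ξ ε).1 s) 0 :=
    (ev s).continuous.continuousAt.comp (continuousAt_fst.comp hc)
  have h1 : ContinuousAt (fun ε : ℝ => (h + ε • g) ((ξ ε).1 s)) 0 := by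
    have e1 : ContinuousAt (fun ε => h ((ξ ε).1 s)) 0 :=
      hm.good.adm.1.continuous.continuousAt.comp h2
    have e2 : ContinuousAt (fun ε => g ((ξ ε).1 s)) 0 := hg.1.continuous.continuousAt.comp h2
    exact e1.add (continuousAt_id.smul e2)
  filter_upwards [mov_eventually (β := fun ε : ℝ => (h + ε • g) ((ξ ε).1 s)) h1,
    dif_eventually h2, hgood] with ε e1 e2 e3
  refine hm.eq_of_sub e3 (fun c hc => e1 c ?_) (fun c d hcd => e2 c d ?_)
  · simpa [h0] using hc
  · simpa [h0] using hcd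

end Pool.Agent.L5helper76.Sync
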