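import Pool.Agent.L5helper76.Sync.Per

/-! Periodic solutions and the integral equation; hyperbolicity gives an invertible linearisation. -/

open Topology Filter Set MeasureTheory
open Pool.Agent.Helper186 (ptApply ptApply_apply hasFDerivAt_comp contDiff_comp_nat)
open Pool.Agent.GR.Flow (volt cst cst_apply ext continuous_ext ext_of_mem norm_ext_le volt_apply
  volt_norm_le)

noncomputable section

namespace Pool.Agent.L5helper76.Sync

variable {E : Type} [NormedAddCommGroup E] [NormedSpace ℝ E] [CompleteSpace E]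

lemma Sol.zero_eq_one {h : C(E, E)} {u : C(unitInterval, E)} {T : ℝ} (hs : Sol h u T) :
    u 0 = u 1 := by
  have := congrArg (fun v : C(unitInterval, E) => v 0) hs
  simpa [volt_apply, sub_eq_zero] using this

lemma Sol.apply {h : C(E, E)} {u : C(unitInterval, E)} {T : ℝ} (hs : Sol h u T)
    (s : unitInterval) : u s = u 0 + ∫ r in (0:ℝ)..s, T • h (ext u r) := by
  have := congrArg (fun v : C(unitInterval, E) => v s) hs
  simp only [ContinuousMap.sub_apply, cst_apply, ContinuousMap.smul_apply, volt_apply,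
    ContinuousMap.zero_apply] at this
  rw [intervalIntegral.integral_smul, hs.zero_eq_one]
  rw [sub_sub, sub_eq_zero] at this
  exact this

theorem exists_periodic (h : E → E) (hc : Continuous h) (u : C(unitInterval, E)) (T : ℝ)
    (hT : 0 < T) (hs : Sol ⟨h, hc⟩ u T) :
    ∃ X : ℝ → E, (∀ t, HasDerivAt X (h (X t)) t) ∧ (∀ t, X (t + T) = X t) ∧
      ∀ s : unitInterval, X (T * s) = u s := by
  have h01 := hs.zero_eq_one
  set w : ℝ → E := (ext u) ∘ Int.fract with hw
  have hwc : Continuous w := by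
    refine ContinuousOn.comp_fract'' (continuous_ext u).continuousOn ?_
    rw [ext_of_mem u (left_mem_Icc.2 zero_le_one), ext_of_mem u (right_mem_Icc.2 zero_le_one)]
    exact h01
  have hwp : Function.Periodic w 1 := fun t => by simp [hw]
  have hw1 : ∀ r ∈ Icc (0:ℝ) 1, w r = ext u r := by
    intro r hr
    rcases eq_or_lt_of_le hr.2 with h1 | h1
    · subst h1
      simp only [hw, Function.comp_apply, Int.fract_one]
      rw [ext_of_mem u (left_mem_Icc.2 zero_le_one), ext_of_mem u (right_mem_Icc.2 zero_le_one)]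
      exact h01
    · simp only [hw, Function.comp_apply]
      rw [Int.fract_eq_self.2 ⟨hr.1, h1⟩]
  have hhw : Continuous (fun r => T • h (w r)) := (hc.comp hwc).const_smul T
  set W : ℝ → E := fun t => u 0 + ∫ r in (0:ℝ)..t, T • h (w r) with hW
  have hWd : ∀ t, HasDerivAt W (T • h (w t)) t := fun t =>
    (intervalIntegral.integral_hasDerivAt_right (hhw.intervalIntegrable _ _)
      (hhw.stronglyMeasurableAtFilter _ _) hhw.continuousAt).const_add (u 0)
  have hW1 : ∀ s : unitInterval, W s = u s := by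
    intro s
    rw [hs.apply s, hW]
    simp only
    congr 1
    refine intervalIntegral.integral_congr fun r hr => ?_
    rw [uIcc_of_le s.2.1] at hr
    simp only [ContinuousMap.coe_mk]
    rw [hw1 r ⟨hr.1, hr.2.trans s.2.2⟩]
  have hWp : Function.Periodic W 1 := by
    intro t
    have hp : Function.Periodic (fun r => T • h (w r)) 1 := fun r => by simp only [hwp r]
    have h1 : ∫ r in t..t + 1, T • h (w r) = ∫ r in (0:ℝ)..0 + 1, T • h (w r) :=
      hp.intervalIntegral_add_eq t 0
    have h2 := hW1 1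
    have h3 : W 1 = u 0 + ∫ r in (0:ℝ)..0 + 1, T • h (w r) := by simp [hW]
    have h4 : ∫ r in (0:ℝ)..0 + 1, T • h (w r) = 0 := by
      have : ((1 : unitInterval) : ℝ) = 1 := rfl
      rw [this] at h2
      rw [h2, ← h01] at h3
      simpa using h3
    simp only [hW]
    rw [← intervalIntegral.integral_add_adjacent_intervals (hhw.intervalIntegrable 0 t)
      (hhw.intervalIntegrable t (t + 1)), h1, h4, add_zero]
  have hWw : ∀ t, W t = w t := by
    intro t
    have h1 : W t = W (Int.fract t) := by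
      have := hWp.sub_int_mul_eq (x := t) (n := ⌊t⌋)
      rw [mul_one] at this
      exact this.symm
    have h2 : W (Int.fract t) = ext u (Int.fract t) := by
      have hm : Int.fract t ∈ Icc (0:ℝ) 1 := ⟨Int.fract_nonneg t, (Int.fract_lt_one t).le⟩
      rw [ext_of_mem u hm]
      exact hW1 ⟨_, hm⟩
    rw [h1, h2]
    rfl
  refine ⟨fun t => W (t / T), ?_, ?_, ?_⟩
  · intro t
    have h1 := (hWd (t / T)).scomp t ((hasDerivAt_id t).div_const T)
    simp only [← hWw] at h1
    have h2 : (1 / T) • T • h (W (t / T)) = h (W (t / T)) := by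
      rw [smul_smul, one_div_mul_cancel hT.ne', one_smul]
    rw [h2] at h1
    exact h1
  · intro t
    simp only
    rw [add_div, div_self hT.ne']
    exact hWp _
  · intro s
    simp only
    rw [mul_div_cancel_left₀ _ hT.ne']
    exact hW1 s

/-- the rescaled curve of a solution -/
def curve (x : ℝ → E) (hx : Continuous x) (T : ℝ) : C(unitInterval, E) :=
  ⟨fun s => x (T * s), hx.comp (continuous_const.mul continuous_subtype_val)⟩

omit [NormedSpace ℝ E] [CompleteSpace E] in
@[simp] lemma curve_apply (x : ℝ → E) (hx : Continuous x) (T : ℝ) (s : unitInterval) :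
    curve x hx T s = x (T * s) := rfl

/-- A curve with the derivative `b` satisfies the corresponding integral equation. -/
lemma volt_of_deriv (z : ℝ → E) (hz : Continuous z) (b : C(unitInterval, E))
    (hd : ∀ s : unitInterval, HasDerivAt z (b s) s) :
    volt E b = curve z hz 1 - cst E (z 0) := by
  ext s
  simp only [volt_apply, ContinuousMap.sub_apply, curve_apply, cst_apply, one_mul]
  have h1 : ∀ r ∈ uIcc (0:ℝ) s, HasDerivAt z (ext b r) r := by
    intro r hr
    rw [uIcc_of_le s.2.1] at hr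
    have hr' : r ∈ Icc (0:ℝ) 1 := ⟨hr.1, hr.2.trans s.2.2⟩
    rw [ext_of_mem _ hr']
    exact hd ⟨r, hr'⟩
  exact intervalIntegral.integral_eq_sub_of_hasDerivAt h1
    ((continuous_ext b).intervalIntegrable _ _)

theorem sol_curve (h : E → E) (hc : Continuous h) (x : ℝ → E) (hx : Continuous x) (T : ℝ)
    (hd : ∀ t, HasDerivAt x (h (x t)) t) (hp : x T = x 0) : Sol ⟨h, hc⟩ (curve x hx T) T := by
  have h1 : volt E (T • (⟨h, hc⟩ : C(E, E)).comp (curve x hx T)) =
      curve (fun s => x (T * s)) (hx.comp (continuous_const.mul continuous_id)) 1 -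
        cst E (x (T * 0)) := by
    refine volt_of_deriv (fun s => x (T * s)) _ _ fun s => ?_
    have := (hd (T * s)).scomp (s : ℝ) ((hasDerivAt_id (s : ℝ)).const_mul T)
    simp only [mul_one] at this
    exact this
  unfold Sol
  rw [map_smul] at h1
  rw [h1]
  ext s
  simp [hp]

/-! ### The Volterra operator is quasinilpotent -/

def KA (A : C(unitInterval, E →L[ℝ] E)) (T : ℝ) :
    C(unitInterval, E) →L[ℝ] C(unitInterval, E) := T • (volt E).comp (ptApply A)

lemma KA_apply (A : C(unitInterval, E →L[ℝ] E)) (T : ℝ) (β : C(unitInterval, E)) :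
    KA A T β = T • volt E (ptApply A β) := rfl

lemma KA_pow_bound (A : C(unitInterval, E →L[ℝ] E)) (T : ℝ) (β : C(unitInterval, E)) (n : ℕ) :
    ∀ s : unitInterval,
      ‖((KA A T ^ n) β) s‖ ≤ (|T| * ‖A‖) ^ n * ‖β‖ * ((s : ℝ) ^ n / n.factorial) := by
  induction n with
  | zero => intro s; simpa using β.norm_coe_le_norm s
  | succ n ih =>
    intro s
    rw [pow_succ', mul_apply_eq_comp, KA_apply, ContinuousMap.smul_apply, volt_apply,
      norm_smul, Real.norm_eq_abs]
    set C := (|T| * ‖A‖) ^ n * ‖β‖ with hC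
    have hb : ∀ r ∈ Icc (0:ℝ) s, ‖ext (ptApply A ((KA A T ^ n) β)) r‖ ≤
        ‖A‖ * (C * (r ^ n / n.factorial)) := by
      intro r hr
      have hr' : r ∈ Icc (0:ℝ) 1 := ⟨hr.1, hr.2.trans s.2.2⟩
      rw [ext_of_mem _ hr', ptApply_apply]
      exact (A _).le_of_opNorm_le_of_le (A.norm_coe_le_norm _) (ih ⟨r, hr'⟩)
    have hint : ∫ r in (0:ℝ)..s, ‖A‖ * (C * (r ^ n / n.factorial)) =
        ‖A‖ * (C * ((s : ℝ) ^ (n + 1) / (n + 1).factorial)) := by
      rw [intervalIntegral.integral_const_mul, intervalIntegral.integral_const_mul,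
        intervalIntegral.integral_div, integral_pow]
      congr 2
      rw [Nat.factorial_succ]
      push_cast
      rw [zero_pow (Nat.succ_ne_zero n), sub_zero, div_div]
    have h1 : ‖∫ r in (0:ℝ)..s, ext (ptApply A ((KA A T ^ n) β)) r‖ ≤
        ‖A‖ * (C * ((s : ℝ) ^ (n + 1) / (n + 1).factorial)) := by
      rw [← hint]
      refine (intervalIntegral.norm_integral_le_integral_norm s.2.1).trans ?_
      refine intervalIntegral.integral_mono_on s.2.1
        ((continuous_ext _).norm.intervalIntegrable _ _)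
        (Continuous.intervalIntegrable (by fun_prop) _ _) hb
    calc |T| * ‖∫ r in (0:ℝ)..s, ext (ptApply A ((KA A T ^ n) β)) r‖
        ≤ |T| * (‖A‖ * (C * ((s : ℝ) ^ (n + 1) / (n + 1).factorial))) := by gcongr
      _ = (|T| * ‖A‖) ^ (n + 1) * ‖β‖ * ((s : ℝ) ^ (n + 1) / (n + 1).factorial) := by
        rw [hC, pow_succ]; ring

lemma KA_isUnit (A : C(unitInterval, E →L[ℝ] E)) (T : ℝ) : IsUnit (1 - KA A T) := by
  have h1 := FloorSemiring.tendsto_pow_div_factorial_atTop (|T| * ‖A‖)
  obtain ⟨n, hn⟩ := (h1.eventually (gt_mem_nhds one_pos)).exists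
  have h2 : ‖KA A T ^ n‖ < 1 := by
    refine lt_of_le_of_lt (ContinuousLinearMap.opNorm_le_bound _ (by positivity) fun β => ?_) hn
    rw [ContinuousMap.norm_le _ (by positivity)]
    intro s
    refine (KA_pow_bound A T β n s).trans ?_
    have h3 : (s : ℝ) ^ n ≤ 1 := pow_le_one₀ s.2.1 s.2.2
    calc (|T| * ‖A‖) ^ n * ‖β‖ * ((s : ℝ) ^ n / n.factorial)
        ≤ (|T| * ‖A‖) ^ n * ‖β‖ * (1 / n.factorial) := by gcongr
      _ = (|T| * ‖A‖) ^ n / n.factorial * ‖β‖ := by ring
  have h3 : IsUnit (1 - KA A T ^ n) := (Units.oneSub (KA A T ^ n) h2).isUnit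
  have h4 : (1 - KA A T) * (∑ i ∈ Finset.range n, KA A T ^ i) = 1 - KA A T ^ n :=
    mul_neg_geom_sum _ _
  have h5 : Commute (1 - KA A T) (∑ i ∈ Finset.range n, KA A T ^ i) :=
    Commute.sum_right _ _ _ fun i _ =>
      (Commute.one_left _).sub_left ((Commute.refl _).pow_right i)
  rw [← h4] at h3
  exact (h5.isUnit_mul_iff.1 h3).1


/-- A periodic orbit with the simple multiplier `1` has an invertible linearisation. -/
theorem invertible_of_simple [FiniteDimensional ℝ E] (f : E → E) (hf : ContDiff ℝ 1 f)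
    (x : ℝ → E) (hx : ∀ t, HasDerivAt x (f (x t)) t) (hxc : Continuous x) (T : ℝ)
    (hper : x T = x 0) (hne : f (x 0) ≠ 0) (Y : ℝ → E →L[ℝ] E) (hY0 : Y 0 = 1)
    (hY : ∀ t, HasDerivAt Y ((fderiv ℝ f (x t)).comp (Y t)) t)
    (hs : ((Y T : E →L[ℝ] E) : E →ₗ[ℝ] E).charpoly.rootMultiplicity 1 = 1) :
    ∃ ℓ : E →L[ℝ] ℝ, (LinAt f hf (curve x hxc T, T) ℓ).IsInvertible := by
  set u := curve x hxc T with hu
  set A := (dcm f hf).comp u with hA
  set b := (cm f hf).comp u with hb
  set f0 := f (x 0) with hf0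
  have hYc : Continuous Y := continuous_iff_continuousAt.2 fun t => (hY t).continuousAt
  obtain ⟨ℓ, hℓ⟩ : ∃ ℓ : E →L[ℝ] ℝ, ℓ f0 = 1 := SeparatingDual.exists_eq_one hne
  obtain ⟨S, hS⟩ := KA_isUnit A T
  have hS1 : ∀ y, (S⁻¹ : (C(unitInterval, E) →L[ℝ] C(unitInterval, E))ˣ).1 (y - KA A T y) = y := by
    intro y
    have : (S⁻¹ : (C(unitInterval, E) →L[ℝ] C(unitInterval, E))ˣ).1 (S.1 y) = y :=
      congrArg (fun L : C(unitInterval, E) →L[ℝ] C(unitInterval, E) => L y) S.inv_mul
    rw [hS] at this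
    simpa using this
  have hS2 : ∀ r, (S⁻¹ : (C(unitInterval, E) →L[ℝ] C(unitInterval, E))ˣ).1 r -
      KA A T ((S⁻¹ : (C(unitInterval, E) →L[ℝ] C(unitInterval, E))ˣ).1 r) = r := by
    intro r
    have : S.1 ((S⁻¹ : (C(unitInterval, E) →L[ℝ] C(unitInterval, E))ˣ).1 r) = r :=
      congrArg (fun L : C(unitInterval, E) →L[ℝ] C(unitInterval, E) => L r) S.mul_inv
    rw [hS] at this
    simpa using this
  have hinj : ∀ y z : C(unitInterval, E), y - KA A T y = z - KA A T z → y = z := by
    intro y z h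
    rw [← hS1 y, h, hS1 z]
  -- the three solutions
  have hyc : ∀ c : E, ∃ y : C(unitInterval, E), y - KA A T y = cst E c ∧ y 0 = c ∧
      y 1 = Y T c := by
    intro c
    have hcont : Continuous fun s : ℝ => Y (T * s) c :=
      (hYc.comp (continuous_const.mul continuous_id)).clm_apply continuous_const
    refine ⟨curve (fun s => Y (T * s) c) hcont 1, ?_, ?_, ?_⟩
    · have := volt_of_deriv (fun s => Y (T * s) c) hcont
        (T • ptApply A (curve (fun s => Y (T * s) c) hcont 1)) (fun s => by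
          have h1 := (hY (T * s)).scomp (s : ℝ) ((hasDerivAt_id (s : ℝ)).const_mul T)
          have h2 := h1.clm_apply (hasDerivAt_const (s : ℝ) c)
          refine h2.congr_deriv ?_
          simp [hA, hu])
      rw [map_smul] at this
      rw [KA_apply, this]
      simp [hY0]
    · simp [hY0]
    · simp
  have hw : ∃ w : C(unitInterval, E), w - KA A T w = volt E b ∧ w 0 = 0 ∧ w 1 = f0 := by
    have hcont : Continuous fun s : ℝ => s • f (x (T * s)) :=
      continuous_id.smul (hf.continuous.comp (hxc.comp (continuous_const.mul continuous_id)))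
    refine ⟨curve (fun s => s • f (x (T * s))) hcont 1, ?_, ?_, ?_⟩
    · have := volt_of_deriv (fun s => s • f (x (T * s))) hcont
        (b + T • ptApply A (curve (fun s => s • f (x (T * s))) hcont 1)) (fun s => by
          have h1 := (hx (T * s)).scomp (s : ℝ) ((hasDerivAt_id (s : ℝ)).const_mul T)
          have h2 := (hasFDerivAt_cm f hf (x (T * s))).comp_hasDerivAt (s : ℝ) h1
          have h3 := (hasDerivAt_id (s : ℝ)).smul h2
          refine h3.congr_deriv ?_
          simp [hb, hA, hu, smul_smul, mul_comm]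
          abel)
      rw [map_add, map_smul] at this
      rw [KA_apply, sub_eq_iff_eq_add]
      simp only [zero_smul, map_zero, sub_zero] at this
      exact this.symm
    · simp
    · simp [hper, hf0]
  have hM : Y T f0 = f0 := by
    obtain ⟨y, hy1, hy2, hy3⟩ := hyc f0
    have hcont : Continuous fun s : ℝ => f (x (T * s)) :=
      (hf.continuous.comp (hxc.comp (continuous_const.mul continuous_id)))
    have := volt_of_deriv (fun s => f (x (T * s))) hcont
        (T • ptApply A (curve (fun s => f (x (T * s))) hcont 1)) (fun s => by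
          have h1 := (hx (T * s)).scomp (s : ℝ) ((hasDerivAt_id (s : ℝ)).const_mul T)
          have h2 := (hasFDerivAt_cm f hf (x (T * s))).comp_hasDerivAt (s : ℝ) h1
          refine h2.congr_deriv ?_
          simp [hA, hu])
    have h2 : curve (fun s => f (x (T * s))) hcont 1 -
        KA A T (curve (fun s => f (x (T * s))) hcont 1) = cst E f0 := by
      rw [map_smul] at this
      rw [KA_apply, this]
      simp [hf0]
    have h3 := hinj _ _ (hy1.trans h2.symm)
    rw [← hy3, h3]
    simp [hper, hf0]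
  -- the finite dimensional system
  have hker : ∀ c : E, ∀ τ : ℝ, c - Y T c = τ • f0 → ℓ c = 0 → c = 0 ∧ τ = 0 := by
    intro c τ h1 h2
    set Φ : Module.End ℝ E := ((Y T : E →L[ℝ] E) : E →ₗ[ℝ] E) with hΦ
    have hfr : Module.finrank ℝ (Φ.maxGenEigenspace 1) = 1 := by
      rw [LinearMap.finrank_maxGenEigenspace_eq]; exact hs
    have hf0m : f0 ∈ Φ.maxGenEigenspace 1 := by
      rw [Module.End.mem_maxGenEigenspace]
      refine ⟨1, ?_⟩
      simp [hΦ, hM]
    have hcm : c ∈ Φ.maxGenEigenspace 1 := by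
      rw [Module.End.mem_maxGenEigenspace]
      refine ⟨2, ?_⟩
      have e1 : (Φ - (1 : ℝ) • 1) c = -(τ • f0) := by
        rw [← h1]; simp [hΦ]
      rw [pow_two, Module.End.mul_apply, e1, map_neg, map_smul]
      simp [hΦ, hM]
    obtain ⟨v, hv, hv'⟩ := finrank_eq_one_iff'.1 hfr
    obtain ⟨a, ha⟩ := hv' ⟨f0, hf0m⟩
    obtain ⟨a', ha'⟩ := hv' ⟨c, hcm⟩
    have ha1 : a • (v : E) = f0 := congrArg Subtype.val ha
    have ha2 : a' • (v : E) = c := congrArg Subtype.val ha'
    have ha0 : a ≠ 0 := by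
      rintro rfl
      rw [zero_smul] at ha1
      exact hne ha1.symm
    have hc : c = (a' / a) • f0 := by
      rw [← ha1, smul_smul, div_mul_cancel₀ _ ha0, ha2]
    have h3 : a' / a = 0 := by
      rw [hc, map_smul, hℓ] at h2
      simpa using h2
    have hc0 : c = 0 := by rw [hc, h3, zero_smul]
    refine ⟨hc0, ?_⟩
    rw [hc0, map_zero, sub_zero] at h1
    by_contra hτ
    exact hne ((smul_eq_zero.1 h1.symm).resolve_left hτ)
  set N : (E × ℝ) →ₗ[ℝ] (E × ℝ) :=
    { toFun := fun p => (p.1 - Y T p.1 - p.2 • f0, ℓ p.1)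
      map_add' := fun p q => by
        ext
        · simp; module
        · simp
      map_smul' := fun a p => by
        ext
        · simp; module
        · simp } with hN
  have hNinj : Function.Injective N := by
    rw [injective_iff_map_eq_zero]
    rintro ⟨c, τ⟩ h
    have h1 := congrArg Prod.fst h
    have h2 := congrArg Prod.snd h
    simp only [hN, LinearMap.coe_mk, AddHom.coe_mk, Prod.fst_zero, Prod.snd_zero] at h1 h2
    obtain ⟨e1, e2⟩ := hker c τ (sub_eq_zero.1 h1) h2
    rw [e1, e2]; rfl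
  have hNsurj : Function.Surjective N := LinearMap.injective_iff_surjective.1 hNinj
  refine ⟨ℓ, ?_⟩
  have hL : ∀ (y : C(unitInterval, E)) (τ : ℝ), LinAt f hf (u, T) ℓ (y, τ) =
      ((y - KA A T y) - cst E (y 1) - τ • volt E b, ℓ (y 0)) := by
    intro y τ
    change Lin _ _ _ _ _ = _
    rw [Lin_apply, KA_apply]
    congr 1
    abel
  obtain ⟨w, hw1, hw2, hw3⟩ := hw
  have hLinj : Function.Injective (LinAt f hf (u, T) ℓ) := by
    rw [injective_iff_map_eq_zero]
    rintro ⟨y, τ⟩ h
    rw [hL] at h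
    have h1 := congrArg Prod.fst h
    have h2 := congrArg Prod.snd h
    simp only [Prod.fst_zero, Prod.snd_zero] at h1 h2
    obtain ⟨z, hz1, hz2, hz3⟩ := hyc (y 1)
    have h3 : y = z + τ • w := by
      refine hinj _ _ ?_
      have e : z + τ • w - KA A T (z + τ • w) = (z - KA A T z) + τ • (w - KA A T w) := by
        rw [map_add, map_smul]; module
      rw [e, hz1, hw1]
      rw [sub_sub, sub_eq_zero] at h1
      exact h1
    have h4 : y 0 = y 1 := by
      conv_lhs => rw [h3]
      simp [hz2, hw2]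
    have h5 : y 1 = Y T (y 1) + τ • f0 := by
      conv_lhs => rw [h3]
      simp [hz3, hw3]
    obtain ⟨e1, e2⟩ := hker (y 1) τ (by rw [sub_eq_iff_eq_add, add_comm]; exact h5) (by rw [← h4]; exact h2)
    have h6 : y = 0 := by
      rw [h3, e2, zero_smul, add_zero]
      refine hinj _ _ ?_
      rw [hz1, e1]; simp
    rw [h6, e2]; rfl
  have hLsurj : Function.Surjective (LinAt f hf (u, T) ℓ) := by
    rintro ⟨r, ρ⟩
    set q := (S⁻¹ : (C(unitInterval, E) →L[ℝ] C(unitInterval, E))ˣ).1 r with hq
    obtain ⟨⟨c, τ⟩, hcτ⟩ := hNsurj (q 1, ρ - ℓ (q 0))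
    have h1 := congrArg Prod.fst hcτ
    have h2 := congrArg Prod.snd hcτ
    simp only [hN, LinearMap.coe_mk, AddHom.coe_mk] at h1 h2
    obtain ⟨z, hz1, hz2, hz3⟩ := hyc c
    refine ⟨(z + τ • w + q, τ), ?_⟩
    have e : z + τ • w + q - KA A T (z + τ • w + q) =
        (z - KA A T z) + τ • (w - KA A T w) + (q - KA A T q) := by
      rw [map_add, map_add, map_smul]; module
    rw [hL, e, hz1, hw1, hS2 r]
    have h3 : (z + τ • w + q) 1 = c := by
      simp only [ContinuousMap.add_apply, ContinuousMap.smul_apply, hz3, hw3]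
      rw [← h1]; abel
    have h4 : ℓ ((z + τ • w + q) 0) = ρ := by
      simp only [ContinuousMap.add_apply, ContinuousMap.smul_apply, hz2, hw2, smul_zero, add_zero,
        map_add]
      rw [h2]; ring
    rw [h3, h4]
    congr 1
    abel
  exact ⟨ContinuousLinearEquiv.ofBijective (LinAt f hf (u, T) ℓ)
    (LinearMap.ker_eq_bot.2 hLinj) (LinearMap.range_eq_top.2 hLsurj), rfl⟩

end Pool.Agent.L5helper76.Sync
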