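import Pool.Agent.L5helper76.Sync.Defs
import Pool.Agent.L5helper76.Sync.Per2

/-! Transport between state spaces, localized admissible vector fields. -/

open Topology Filter Set MeasureTheory

noncomputable section

namespace Pool.Agent.L5helper76.Sync

variable {N A S K Z : Type}

section Same

variable {P : Z → Type}

lemma Same.rfl' {τ : Z} (a : P τ) : Same a a := rfl

lemma Same.symm' {τ σ : Z} {a : P τ} {b : P σ} (h : Same a b) : Same b a := Eq.symm h

lemma Same.trans' {τ σ ρ : Z} {a : P τ} {b : P σ} {c : P ρ} (h : Same a b) (h' : Same b c) :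
    Same a c := Eq.trans h h'

lemma Same.ty {τ σ : Z} {a : P τ} {b : P σ} (h : Same a b) : τ = σ := congrArg Sigma.fst h

variable [∀ τ, NormedAddCommGroup (P τ)] [∀ τ, NormedSpace ℝ (P τ)]

/-- transport along an equality of types -/
def tr (P : Z → Type) [∀ τ, NormedAddCommGroup (P τ)] [∀ τ, NormedSpace ℝ (P τ)]
    {τ σ : Z} (h : τ = σ) : P τ →L[ℝ] P σ := h ▸ ContinuousLinearMap.id ℝ (P τ)

@[simp] lemma tr_rfl {τ : Z} (h : τ = τ) (a : P τ) : tr P h a = a := by
  have : h = rfl := Subsingleton.elim _ _
  subst this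
  rfl

lemma same_iff {τ σ : Z} (h : τ = σ) (a : P τ) (b : P σ) : Same a b ↔ tr P h a = b := by
  subst h
  rw [tr_rfl]
  unfold Same
  constructor
  · intro h'
    simpa using h'
  · rintro rfl
    rfl

lemma norm_tr {τ σ : Z} (h : τ = σ) (a : P τ) : ‖tr P h a‖ = ‖a‖ := by
  subst h; simp

lemma tr_tr {τ σ ρ : Z} (h : τ = σ) (h' : σ = ρ) (a : P τ) :
    tr P h' (tr P h a) = tr P (h.trans h') a := by
  subst h; subst h'; simp

lemma same_tr {τ σ : Z} (h : τ = σ) (a : P τ) : Same a (tr P h a) := (same_iff h a _).2 rfl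

lemma Same.add' {τ σ : Z} {a a' : P τ} {b b' : P σ} (h : Same a b) (h' : Same a' b') :
    Same (a + a') (b + b') := by
  rw [same_iff h.ty] at *
  rw [map_add, h, h']

lemma Same.smul' {τ σ : Z} {a : P τ} {b : P σ} (h : Same a b) (c : ℝ) :
    Same (c • a) (c • b) := by
  rw [same_iff h.ty] at *
  rw [map_smul, h]

end Same

section

variable [Fintype N] [DecidableEq N] [Fintype A] (G : Network N A S K Z) (P : Z → Type)
  [∀ τ, NormedAddCommGroup (P τ)] [∀ τ, NormedSpace ℝ (P τ)]

variable {G} in
omit [Fintype N] [DecidableEq N] [Fintype A] in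
lemma Network.InputIso.sameSpace {c d : N} (β : G.InputIso c d) : G.space c = G.space d :=
  G.space_type _ _ β.sameType

variable {sm : Prop}

/-- what the node `c` sees -/
def obs (c : N) : G.State P →L[ℝ] G.Local P c :=
  ContinuousLinearMap.prod (ContinuousLinearMap.proj c)
    (ContinuousLinearMap.pi fun e => ContinuousLinearMap.proj (G.tail e.1))

@[simp] lemma obs_fst (c : N) (x : G.State P) : (obs G P c x).1 = x c := rfl
@[simp] lemma obs_snd (c : N) (x : G.State P) (e : G.Inputs c) :
    (obs G P c x).2 e = x (G.tail e.1) := rfl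

variable {G}

/-- pull back along an input isomorphism -/
def pull {c d : N} (β : G.InputIso c d) : G.Local P d →L[ℝ] G.Local P c :=
  ContinuousLinearMap.prod
    ((tr P β.sameSpace.symm).comp (ContinuousLinearMap.fst ℝ _ _))
    (ContinuousLinearMap.pi fun e =>
      (tr P (G.space_type _ _ (G.tail_type _ _ (β.arrow e)))).comp
        ((ContinuousLinearMap.proj (β.map e)).comp (ContinuousLinearMap.snd ℝ _ _)))

lemma pull_eq_iff {c d : N} (β : G.InputIso c d) (w : G.Local P d) (z : G.Local P c) :
    pull P β w = z ↔ Same z.1 w.1 ∧ ∀ e, Same (z.2 e) (w.2 (β.map e)) := by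
  constructor
  · rintro rfl
    exact ⟨(same_tr _ _).symm', fun e => (same_tr _ _).symm'⟩
  · rintro ⟨h1, h2⟩
    refine Prod.ext ((same_iff _ _ _).1 h1.symm') (funext fun e => (same_iff _ _ _).1 (h2 e).symm')

/-- composition of input isomorphisms -/
def compIso {c d b : N} (β : G.InputIso c d) (γ : G.InputIso d b) : G.InputIso c b where
  sameType := β.sameType.trans γ.sameType
  map := β.map.trans γ.map
  arrow := fun e => (γ.arrow _).trans (β.arrow e)

/-- the inverse -/
def symmIso {c d : N} (β : G.InputIso c d) : G.InputIso d c where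
  sameType := β.sameType.symm
  map := β.map.symm
  arrow := fun e => by
    have := β.arrow (β.map.symm e)
    rw [β.map.apply_symm_apply] at this
    exact this.symm

/-- the identity -/
def idIso (c : N) : G.InputIso c c := ⟨rfl, Equiv.refl _, fun _ => rfl⟩

lemma InputIso.ext' {c d : N} {β γ : G.InputIso c d} (h : β.map = γ.map) : β = γ := by
  cases β; cases γ; cases h; rfl

instance (c d : N) : Finite (G.InputIso c d) :=
  Finite.of_injective (fun β : G.InputIso c d => β.map) fun _ _ h => InputIso.ext' h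

instance (c d : N) : Fintype (G.InputIso c d) := Fintype.ofFinite _

/-- composition with an input isomorphism as a bijection -/
def compEquiv (a : N) {c d : N} (γ : G.InputIso c d) : G.InputIso a c ≃ G.InputIso a d where
  toFun β := compIso β γ
  invFun β := compIso β (symmIso γ)
  left_inv β := InputIso.ext' (by ext e; simp [compIso, symmIso])
  right_inv β := InputIso.ext' (by ext e; simp [compIso, symmIso])

lemma pull_comp {a c d : N} (β : G.InputIso a c) (γ : G.InputIso c d) (w : G.Local P d) :
    pull P (compIso β γ) w = pull P β (pull P γ w) := by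
  rw [pull_eq_iff]
  have h1 := (pull_eq_iff P β (pull P γ w) _).1 rfl
  have h2 := (pull_eq_iff P γ w _).1 rfl
  exact ⟨h1.1.trans' h2.1, fun e => (h1.2 e).trans' (h2.2 _)⟩

lemma pull_id (a : N) (z : G.Local P a) : pull P (idIso a) z = z := by
  rw [pull_eq_iff]
  exact ⟨rfl, fun e => rfl⟩

lemma pull_symm {c d : N} (β : G.InputIso c d) (z : G.Local P c) (w : G.Local P d) :
    pull P (symmIso β) z = w ↔ pull P β w = z := by
  constructor
  · rintro rfl
    rw [← pull_comp]
    have : compIso β (symmIso β) = idIso c := InputIso.ext' (by ext e; simp [compIso, symmIso, idIso])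
    rw [this, pull_id]
  · rintro rfl
    rw [← pull_comp]
    have : compIso (symmIso β) β = idIso d := InputIso.ext' (by ext e; simp [compIso, symmIso, idIso])
    rw [this, pull_id]

/-- the weak form of admissibility -/
lemma adm_same {f : G.State P → G.State P} (hf : IsAdmissible G P sm f) {c d : N}
    (β : G.InputIso c d) (x y : G.State P) (h : pull P β (obs G P d y) = obs G P c x) :
    Same (f x c) (f y d) := by
  obtain ⟨_, F, _, hF2, hF3⟩ := hf
  rw [pull_eq_iff] at h
  rw [hF2, hF2]
  exact hF3 c d β _ _ h.1 h.2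

lemma adm_local {f : G.State P → G.State P} (hf : IsAdmissible G P sm f) {c : N}
    (x y : G.State P) (h : obs G P c x = obs G P c y) : f x c = f y c := by
  have := adm_same P hf (idIso c) x y (by rw [pull_id, h])
  rw [same_iff rfl] at this
  simpa using this

lemma adm_add {f g : G.State P → G.State P} (hf : IsAdmissible G P sm f) (hg : IsAdmissible G P sm g)
    (ε : ℝ) : IsAdmissible G P sm (f + ε • g) := by
  obtain ⟨hf1, F, hF1, hF2, hF3⟩ := hf
  obtain ⟨hg1, F', hF1', hF2', hF3'⟩ := hg
  refine ⟨hf1.add (hg1.const_smul ε), fun c z => F c z + ε • F' c z, fun hsm c =>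
    (hF1 hsm c).add ((hF1' hsm c).const_smul ε), fun x c => ?_, fun c d β z w h1 h2 => ?_⟩
  · simp only [Pi.add_apply, Pi.smul_apply]
    rw [hF2, hF2']
  · exact (hF3 c d β z w h1 h2).add' ((hF3' c d β z w h1 h2).smul' ε)

/-- localized admissible vector fields -/
def kickLoc (a : N) (φ : G.Local P a → ℝ) (v : P (G.space a)) (c : N) (w : G.Local P c) :
    P (G.space c) :=
  ∑ β : G.InputIso a c, φ (pull P β w) • tr P β.sameSpace v

def kick (a : N) (φ : G.Local P a → ℝ) (v : P (G.space a)) (x : G.State P) : G.State P :=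
  fun c => kickLoc P a φ v c (obs G P c x)

lemma kick_apply (a : N) (φ : G.Local P a → ℝ) (v : P (G.space a)) (x : G.State P) (c : N) :
    kick P a φ v x c = ∑ β : G.InputIso a c, φ (pull P β (obs G P c x)) • tr P β.sameSpace v := rfl

lemma contDiff_kickLoc (a : N) (φ : G.Local P a → ℝ) (hφ : ContDiff ℝ 1 φ) (v : P (G.space a))
    (c : N) : ContDiff ℝ 1 (kickLoc P a φ v c) := by
  unfold kickLoc
  refine ContDiff.sum fun β _ => ?_
  exact (hφ.comp (pull P β).contDiff).smul contDiff_const

lemma kick_adm (a : N) (φ : G.Local P a → ℝ) (hφ : ContDiff ℝ 1 φ) (v : P (G.space a)) :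
    IsAdmissible G P sm (kick P a φ v) := by
  refine ⟨?_, kickLoc P a φ v, fun _ => contDiff_kickLoc P a φ hφ v, fun x c => rfl, ?_⟩
  · rw [contDiff_pi]
    intro c
    exact (contDiff_kickLoc P a φ hφ v c).comp (obs G P c).contDiff
  · intro c d γ z w h1 h2
    have hz : pull P γ w = z := (pull_eq_iff P γ w z).2 ⟨h1, h2⟩
    rw [same_iff γ.sameSpace]
    unfold kickLoc
    rw [map_sum, ← (compEquiv a γ).sum_comp]
    refine Finset.sum_congr rfl fun β _ => ?_
    rw [map_smul, tr_tr]
    have : pull P (compEquiv a γ β) w = pull P β z := by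
      rw [← hz, ← pull_comp]; rfl
    rw [this]

/-- bounds for localized vector fields -/
lemma kick_bdd (a : N) (φ : G.Local P a → ℝ) (hφ : ContDiff ℝ 1 φ) (hc : HasCompactSupport φ)
    (v : P (G.space a)) :
    ∃ B : ℝ, 0 ≤ B ∧ ∀ x, ‖kick P a φ v x‖ ≤ B ∧ ‖fderiv ℝ (kick P a φ v) x‖ ≤ B := by
  obtain ⟨C1, hC1⟩ := hφ.continuous.bounded_above_of_compact_support hc
  obtain ⟨C2, hC2⟩ := hφ.lipschitzWith_of_hasCompactSupport hc one_ne_zero
  have hC10 : 0 ≤ C1 := (norm_nonneg _).trans (hC1 0)
  set B1 : ℝ := ∑ c : N, ∑ β : G.InputIso a c, C1 * ‖v‖ with hB1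
  set B2 : ℝ := ∑ c : N, ∑ β : G.InputIso a c, C2 * ‖(pull P β).comp (obs G P c)‖ * ‖v‖ with hB2
  have hB10 : 0 ≤ B1 := by positivity
  have hB20 : 0 ≤ B2 := by positivity
  have h1 : ∀ x, ‖kick P a φ v x‖ ≤ B1 := by
    intro x
    rw [pi_norm_le_iff_of_nonneg hB10]
    intro c
    calc ‖kick P a φ v x c‖ ≤ ∑ β : G.InputIso a c, C1 * ‖v‖ := by
          rw [kick_apply]
          refine norm_sum_le_of_le _ fun β _ => ?_
          rw [norm_smul, norm_tr]
          gcongr
          exact hC1 _
      _ ≤ B1 := Finset.single_le_sum (f := fun c => ∑ β : G.InputIso a c, C1 * ‖v‖)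
          (fun c _ => by positivity) (Finset.mem_univ c)
  have h2 : LipschitzWith (Real.toNNReal B2) (kick P a φ v) := by
    refine LipschitzWith.of_dist_le_mul fun x y => ?_
    rw [Real.coe_toNNReal _ hB20, dist_pi_le_iff (by positivity)]
    intro c
    calc dist (kick P a φ v x c) (kick P a φ v y c)
        ≤ ∑ β : G.InputIso a c, (C2 * ‖(pull P β).comp (obs G P c)‖ * ‖v‖) * dist x y := by
          rw [kick_apply, kick_apply, dist_eq_norm, ← Finset.sum_sub_distrib]
          refine norm_sum_le_of_le _ fun β _ => ?_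
          rw [← sub_smul, norm_smul, norm_tr]
          have e1 := hC2.dist_le_mul (pull P β (obs G P c x)) (pull P β (obs G P c y))
          have e2 := ((pull P β).comp (obs G P c)).lipschitz.dist_le_mul x y
          rw [dist_eq_norm] at e1
          calc ‖φ (pull P β (obs G P c x)) - φ (pull P β (obs G P c y))‖ * ‖v‖
              ≤ (C2 * dist (pull P β (obs G P c x)) (pull P β (obs G P c y))) * ‖v‖ := by gcongr
            _ ≤ (C2 * (‖(pull P β).comp (obs G P c)‖ * dist x y)) * ‖v‖ := by
                gcongr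
                exact e2
            _ = _ := by ring
      _ = (∑ β : G.InputIso a c, (C2 * ‖(pull P β).comp (obs G P c)‖ * ‖v‖)) * dist x y := by
          rw [Finset.sum_mul]
      _ ≤ B2 * dist x y := by
          gcongr
          exact Finset.single_le_sum
            (f := fun c => ∑ β : G.InputIso a c, C2 * ‖(pull P β).comp (obs G P c)‖ * ‖v‖)
            (fun c _ => by positivity) (Finset.mem_univ c)
  refine ⟨B1 + B2, by positivity, fun x => ⟨(h1 x).trans (by linarith), ?_⟩⟩
  have h3 := norm_fderiv_le_of_lipschitz ℝ h2 (x₀ := x)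
  rw [Real.coe_toNNReal _ hB20] at h3
  linarith

end

end Pool.Agent.L5helper76.Sync
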