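import Pool.Agent.L5helper76.Sync.Ode

/-! Rigid synchrony patterns of hyperbolic periodic orbits are balanced. -/

open Topology Filter Set MeasureTheory
open Pool.Agent.GR.Flow (volt cst cst_apply ext continuous_ext ext_of_mem norm_ext_le volt_apply
  volt_norm_le)

noncomputable section

namespace Pool.Agent.L5helper76.Sync

variable {N A S K Z : Type} [Fintype N] [DecidableEq N] [Fintype A] (G : Network N A S K Z)
  (P : Z → Type) [∀ τ, NormedAddCommGroup (P τ)] [∀ τ, NormedSpace ℝ (P τ)]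
  [∀ τ, FiniteDimensional ℝ (P τ)] [∀ τ, Nontrivial (P τ)]

theorem rigid_balanced (sm : Prop) (f : G.State P → G.State P) (hf : IsAdmissible G P sm f)
    (x : ℝ → G.State P) (T : ℝ) (hx : IsPeriodicOrbit f x T)
    (hh : IsHyperbolic f x T) (hr : IsRigid G P sm f x T) :
    IsBalanced G (Pattern G x) := by
  have : CompleteSpace (G.State P) := FiniteDimensional.complete ℝ _
  obtain ⟨δ, hδ, hrig⟩ := hr
  have hxc : Continuous x := continuous_iff_continuousAt.2 fun t => (hx.deriv t).continuousAt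
  set u0 := curve x hxc T with hu0
  have hxT : x T = x 0 := by simpa using hx.periodic 0
  have hgood : Good G P sm f x u0 T δ f u0 T := by
    refine ⟨hf, ⟨0, hδ, fun y => by simp⟩, hx.pos, by simpa using hδ, by simpa using hδ, ?_, ?_, ?_,
      ?_⟩
    · exact sol_curve f hf.1.continuous x hxc T hx.deriv hxT
    · obtain ⟨Y, ⟨hY0, hY⟩, hs, _⟩ := hh
      exact invertible_of_simple f hf.1 x hx.deriv hxc T hxT (ne_zero_of_nonconst hf.1 hx) Y hY0 hY hs
    · obtain ⟨t, ht⟩ := hx.nonconst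
      obtain ⟨s, hs⟩ := exists_param hx.pos hx.periodic t
      refine ⟨s, ?_⟩
      rw [hu0, curve_apply, curve_apply, hs]
      simpa using ht
    · intro c d hcd
      unfold Pattern at hcd
      push Not at hcd
      obtain ⟨t, ht⟩ := hcd
      obtain ⟨s, hs⟩ := exists_param hx.pos hx.periodic t
      refine ⟨s, ?_⟩
      rw [hu0, curve_apply, hs]
      exact ht
  obtain ⟨h, u, T', s0, hm0⟩ := exists_maxPt hgood
  -- move the maximal point into the interior
  obtain ⟨s, hm, h0, h1⟩ : ∃ s : unitInterval, IsMaxPt G P sm f x u0 T δ h u T' s ∧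
      (0:ℝ) < s ∧ (s:ℝ) < 1 := by
    have hn := hm0.near_s
    have hd : Dense {s : unitInterval | (0:ℝ) < s ∧ (s:ℝ) < 1} := by
      rw [Metric.dense_iff]
      intro p r hr
      have hp0 := p.2.1
      have hp1 := p.2.2
      set q : ℝ := (1 - min (r/2) (1/2)) * p + min (r/2) (1/2) * (1/2) with hq
      have hm1 : 0 < min (r/2) (1/2) := by positivity
      have hm2 : min (r/2) (1/2) ≤ 1/2 := min_le_right _ _
      have hm3 : min (r/2) (1/2) ≤ r/2 := min_le_left _ _
      have hq0 : 0 < q := by rw [hq]; nlinarith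
      have hq1 : q < 1 := by rw [hq]; nlinarith
      refine ⟨⟨q, hq0.le, hq1.le⟩, ?_, hq0, hq1⟩
      rw [Metric.mem_ball, Subtype.dist_eq, Real.dist_eq]
      simp only
      have : q - p = min (r/2) (1/2) * (1/2 - p) := by rw [hq]; ring
      rw [this, abs_mul, abs_of_pos hm1]
      have h3 : |1/2 - (p:ℝ)| ≤ 1 := by rw [abs_le]; constructor <;> linarith
      calc min (r/2) (1/2) * |1/2 - (p:ℝ)| ≤ min (r/2) (1/2) * 1 := by gcongr
        _ < r := by linarith
    obtain ⟨s, hs1, hs2⟩ := (hd.inter_nhds_nonempty hn : _)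
    exact ⟨s, hs2.1, hs1.1, hs1.2⟩
  have hg := hm.good
  obtain ⟨X, hXd, hXp, hXu⟩ := exists_periodic h hg.adm.1.continuous u T' hg.Tpos hg.sol
  have hX0 : X 0 = u 0 := by simpa using hXu 0
  have hXorb : IsPeriodicOrbit h X T' := by
    refine ⟨hg.Tpos, hXd, hXp, ?_⟩
    obtain ⟨s', hs'⟩ := hg.nonconst
    refine ⟨T' * s', ?_⟩
    rw [hXu, hX0]
    exact hs'
  have hR1 : ∀ c d, Pattern G x c d → Pattern G X c d := by
    refine hrig h X T' hg.adm ?_ hXorb ⟨hg.Tnear, ?_⟩
    · obtain ⟨δ', hδ', hn⟩ := hg.near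
      exact fun y => ⟨(hn y).1.trans_lt hδ', (hn y).2.trans_lt hδ'⟩
    · intro s' hs'
      have e1 := hXu ⟨s', hs'⟩
      have e2 : x (T * s') = u0 ⟨s', hs'⟩ := rfl
      simp only at e1
      rw [e1, e2]
      exact ((u - u0).norm_coe_le_norm ⟨s', hs'⟩).trans_lt hg.unear
  have hbal : ∀ c d, Same (X (T' * s) c) (X (T' * s) d) → Eqv G P (X (T' * s)) c d := by
    rw [hXu]
    exact fun c d => hm.balanced h0 h1
  have hR2 : ∀ c d, Same (u s c) (u s d) → Pattern G x c d := by
    intro c d hcd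
    by_contra hno
    obtain ⟨s', hs'⟩ := hg.pat c d hno
    refine hs' ?_
    rw [← hXu s']
    refine sync_of_balanced hg.adm hg.Tpos hXd hXp (T' * s) hbal (T' * s') c d ?_
    rw [hXu]
    exact hcd
  intro c d hcd
  have h3 : Same (u s c) (u s d) := by
    rw [← hXu s]
    exact hR1 c d hcd _
  obtain ⟨β, hβ⟩ := hm.balanced h0 h1 h3
  rw [pull_eq_iff] at hβ
  exact ⟨β, fun e => hR2 _ _ (hβ.2 e)⟩

end Pool.Agent.L5helper76.Sync
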