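import Pool.Agent.L5helper76.Sync.Rest

/-! Flow invariance of the synchrony subspaces of balanced relations. -/

open Topology Filter Set MeasureTheory
open scoped NNReal

noncomputable section

namespace Pool.Agent.L5helper76.Sync

lemma exists_lip {E : Type} [NormedAddCommGroup E] [NormedSpace ℝ E] [FiniteDimensional ℝ E]
    {h : E → E} (hh : ContDiff ℝ 1 h) (M : ℝ) :
    ∃ K : ℝ≥0, LipschitzOnWith K h (Metric.closedBall 0 M) := by
  obtain ⟨C, hC⟩ := (isCompact_closedBall (0:E) M).exists_bound_of_continuousOn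
    (hh.continuous_fderiv one_ne_zero).continuousOn
  refine ⟨Real.toNNReal C, (convex_closedBall _ _).lipschitzOnWith_of_nnnorm_fderiv_le
    (fun x _ => hh.differentiable one_ne_zero x) fun x hx => ?_⟩
  rw [← NNReal.coe_le_coe, coe_nnnorm]
  exact (hC x hx).trans (Real.le_coe_toNNReal C)

/-- a nonconstant solution has no equilibrium on it -/
lemma ne_zero_of_nonconst {E : Type} [NormedAddCommGroup E] [NormedSpace ℝ E]
    [FiniteDimensional ℝ E] {f : E → E} (hf : ContDiff ℝ 1 f) {x : ℝ → E} {T : ℝ}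
    (hx : IsPeriodicOrbit f x T) : f (x 0) ≠ 0 := by
  intro h0
  have hxc : Continuous x := continuous_iff_continuousAt.2 fun t => (hx.deriv t).continuousAt
  have hb : Bornology.IsBounded (range x) :=
    Function.Periodic.isBounded_of_continuous (f := x) (c := T) hx.periodic hx.pos.ne' hxc
  obtain ⟨M, hM⟩ := hb.subset_closedBall 0
  obtain ⟨K, hK⟩ := exists_lip hf M
  have : x = fun _ => x 0 := by
    refine ODE_solution_unique_univ (v := fun _ => f) (s := fun _ => Metric.closedBall 0 M)
      (t₀ := 0) (fun t => hK) (fun t => ⟨hx.deriv t, hM (mem_range_self t)⟩)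
      (fun t => ⟨?_, hM (mem_range_self 0)⟩) rfl
    simp only [h0]
    exact hasDerivAt_const t (x 0)
  obtain ⟨t, ht⟩ := hx.nonconst
  exact ht (congrFun this t)

lemma exists_param {E : Type} {x : ℝ → E} {T : ℝ} (hT : 0 < T) (hp : ∀ t, x (t + T) = x t) (t : ℝ) :
    ∃ s : unitInterval, x (T * s) = x t := by
  refine ⟨⟨Int.fract (t / T), Int.fract_nonneg _, (Int.fract_lt_one _).le⟩, ?_⟩
  have h1 : Function.Periodic x T := hp
  have h2 := h1.sub_int_mul_eq (x := t) (n := ⌊t / T⌋)
  rw [← h2]
  congr 1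
  simp only [Int.fract]
  rw [mul_sub, mul_div_cancel₀ _ hT.ne']
  ring

section

variable {N A S K Z : Type} [Fintype N] [DecidableEq N] [Fintype A] {G : Network N A S K Z}
  {P : Z → Type} [∀ τ, NormedAddCommGroup (P τ)] [∀ τ, NormedSpace ℝ (P τ)]
  [∀ τ, FiniteDimensional ℝ (P τ)]

/-- replace the state of every node by the state of its representative -/
def rep (G : Network N A S K Z) (P : Z → Type) [∀ τ, NormedAddCommGroup (P τ)]
    [∀ τ, NormedSpace ℝ (P τ)] (ρ : N → N) (hρ : ∀ c, G.space (ρ c) = G.space c) :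
    G.State P →L[ℝ] G.State P :=
  ContinuousLinearMap.pi fun c => (tr P (hρ c)).comp (ContinuousLinearMap.proj (ρ c))

omit [Fintype N] [DecidableEq N] [Fintype A] [∀ τ, FiniteDimensional ℝ (P τ)] in
lemma rep_apply (ρ : N → N) (hρ : ∀ c, G.space (ρ c) = G.space c) (x : G.State P) (c : N) :
    rep G P ρ hρ x c = tr P (hρ c) (x (ρ c)) := rfl

theorem sync_of_balanced {sm : Prop} {h : G.State P → G.State P} (hadm : IsAdmissible G P sm h)
    {X : ℝ → G.State P} {T : ℝ} (hT : 0 < T) (hd : ∀ t, HasDerivAt X (h (X t)) t)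
    (hp : ∀ t, X (t + T) = X t) (t0 : ℝ)
    (hbal : ∀ c d, Same (X t0 c) (X t0 d) → Eqv G P (X t0) c d) :
    ∀ t c d, Same (X t0 c) (X t0 d) → Same (X t c) (X t d) := by
  classical
  -- the relation and its representatives
  let st : Setoid N := ⟨fun c d => Same (X t0 c) (X t0 d), fun c => Same.rfl' _,
    fun h => h.symm', fun h h' => h.trans' h'⟩
  set ρ : N → N := fun c => (Quotient.mk st c).out with hρdef
  have hρR : ∀ c, Same (X t0 (ρ c)) (X t0 c) := fun c => Quotient.mk_out (s := st) c
  have hρE : ∀ c d, Same (X t0 c) (X t0 d) → ρ c = ρ d := by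
    intro c d hcd
    have : (Quotient.mk st c) = (Quotient.mk st d) := Quotient.sound hcd
    simp only [hρdef, this]
  have hρ : ∀ c, G.space (ρ c) = G.space c := fun c => (hρR c).ty
  set Q := rep G P ρ hρ with hQ
  -- synchrony of the projected states
  have hQs : ∀ (w : G.State P) (c d : N), Same (X t0 c) (X t0 d) → Same (Q w c) (Q w d) := by
    intro w c d hcd
    have e1 : Same (w (ρ c)) (Q w c) := same_tr _ _
    have e2 : Same (w (ρ d)) (Q w d) := same_tr _ _
    have e3 : Same (w (ρ c)) (w (ρ d)) := by rw [hρE c d hcd]; exact Same.rfl' _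
    exact e1.symm'.trans' (e3.trans' e2)
  have hQh : ∀ w, Q (h (Q w)) = h (Q w) := by
    intro w
    funext c
    obtain ⟨β, hβ⟩ := hbal (ρ c) c (hρR c)
    have h1 : pull P β (obs G P c (Q w)) = obs G P (ρ c) (Q w) := by
      rw [pull_eq_iff] at hβ ⊢
      exact ⟨hQs w _ _ hβ.1, fun e => hQs w _ _ (hβ.2 e)⟩
    have h2 := adm_same P hadm β (Q w) (Q w) h1
    rw [hQ, rep_apply]
    exact (same_iff (hρ c) _ _).1 h2
  -- bounds
  have hXc : Continuous X := continuous_iff_continuousAt.2 fun t => (hd t).continuousAt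
  have hb : Bornology.IsBounded (range X) :=
    Function.Periodic.isBounded_of_continuous (f := X) (c := T) hp hT.ne' hXc
  obtain ⟨M, hM⟩ := hb.subset_closedBall 0
  have hM' : ∀ t, ‖X t‖ ≤ M := fun t => by simpa using hM (mem_range_self t)
  have hM0 : 0 ≤ M := (norm_nonneg _).trans (hM' 0)
  set M1 := ‖Q‖ * M with hM1
  have hQM : ∀ t, ‖Q (X t)‖ ≤ M1 := fun t => Q.le_opNorm_of_le (hM' t)
  obtain ⟨K, hK⟩ := exists_lip hadm.1 (M1 + (M + M1))
  set D : G.State P →L[ℝ] G.State P := ContinuousLinearMap.id ℝ _ - Q with hD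
  set v : ℝ → G.State P → G.State P := fun t q => D (h (Q (X t) + q)) with hv
  have key : (fun t => X t - Q (X t)) = fun _ => (0 : G.State P) := by
    refine ODE_solution_unique_univ (v := v) (s := fun _ => Metric.closedBall 0 (M + M1))
      (K := ‖D‖₊ * K) (t₀ := t0) (fun t => ?_) (fun t => ⟨?_, ?_⟩) (fun t => ⟨?_, ?_⟩) ?_
    · have h1 : LipschitzOnWith K (fun q => h (Q (X t) + q)) (Metric.closedBall 0 (M + M1)) := by
        refine LipschitzOnWith.of_dist_le_mul fun q hq q' hq' => ?_
        have e : ∀ q ∈ Metric.closedBall (0 : G.State P) (M + M1),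
            Q (X t) + q ∈ Metric.closedBall (0 : G.State P) (M1 + (M + M1)) := by
          intro q hq
          rw [mem_closedBall_zero_iff] at hq ⊢
          exact norm_add_le_of_le (hQM t) hq
        have := hK.dist_le_mul _ (e q hq) _ (e q' hq')
        rwa [dist_add_left] at this
      exact D.lipschitz.comp_lipschitzOnWith h1
    · have h1 := (hd t).sub (Q.hasFDerivAt.comp_hasDerivAt t (hd t))
      refine h1.congr_deriv ?_
      simp only [hv, hD, add_sub_cancel]
      simp
    · rw [mem_closedBall_zero_iff]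
      exact (norm_sub_le _ _).trans (add_le_add (hM' t) (hQM t))
    · have : v t 0 = 0 := by
        simp only [hv, add_zero, hD, sub_apply, ContinuousLinearMap.id_apply,
          hQh, sub_self]
      rw [this]
      exact hasDerivAt_const t _
    · rw [mem_closedBall_zero_iff, norm_zero]; positivity
    · rw [sub_eq_zero]
      funext c
      rw [hQ, rep_apply]
      exact ((same_iff (hρ c) _ _).1 (hρR c)).symm
  intro t c d hcd
  have h1 : X t = Q (X t) := sub_eq_zero.1 (congrFun key t)
  rw [h1]
  exact hQs _ c d hcd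

end

end Pool.Agent.L5helper76.Sync
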