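import Mathlib
import Pool.Agent.Helper186.Nemytskii
import Pool.Agent.GR.Flow

/-! Perturbation of nondegenerate periodic solutions, in the space of curves. -/

open Topology Filter Set MeasureTheory
open Pool.Agent.Helper186 (ptApply ptApply_apply hasFDerivAt_comp contDiff_comp_nat)
open Pool.Agent.GR.Flow (volt cst cst_apply ext continuous_ext ext_of_mem norm_ext_le volt_apply
  volt_norm_le)

noncomputable section

namespace Pool.Agent.L5helper76.Sync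

variable {E : Type} [NormedAddCommGroup E] [NormedSpace ℝ E]

/-- evaluation of curves -/
abbrev ev (s : unitInterval) : C(unitInterval, E) →L[ℝ] E := ContinuousMap.evalCLM ℝ s

def cm (h : E → E) (hC : ContDiff ℝ 1 h) : C(E, E) := ⟨h, hC.continuous⟩

def dcm (h : E → E) (hC : ContDiff ℝ 1 h) : C(E, E →L[ℝ] E) :=
  ⟨fderiv ℝ h, hC.continuous_fderiv one_ne_zero⟩

@[simp] lemma cm_apply (h : E → E) (hC : ContDiff ℝ 1 h) (x : E) : cm h hC x = h x := rfl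

@[simp] lemma dcm_apply (h : E → E) (hC : ContDiff ℝ 1 h) (x : E) : dcm h hC x = fderiv ℝ h x := rfl

lemma hasFDerivAt_cm (h : E → E) (hC : ContDiff ℝ 1 h) (x : E) :
    HasFDerivAt (cm h hC) (dcm h hC x) x :=
  (hC.differentiable one_ne_zero x).hasFDerivAt

/-- `(y, τ) ↦ (y - y(1) - T ∫ A y - τ ∫ b, ℓ (y(0)))` -/
def Lin (A : C(unitInterval, E →L[ℝ] E)) (b : C(unitInterval, E)) (T : ℝ) (ℓ : E →L[ℝ] ℝ) :
    (C(unitInterval, E) × ℝ) →L[ℝ] (C(unitInterval, E) × ℝ) :=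
  ContinuousLinearMap.prod
    (((ContinuousLinearMap.id ℝ C(unitInterval, E) - (cst E).comp (ev 1) -
      T • (volt E).comp (ptApply A)).comp (ContinuousLinearMap.fst ℝ C(unitInterval, E) ℝ)) -
    (ContinuousLinearMap.snd ℝ C(unitInterval, E) ℝ).smulRight (volt E b))
    ((ℓ.comp (ev 0)).comp (ContinuousLinearMap.fst ℝ C(unitInterval, E) ℝ))

lemma Lin_apply (A : C(unitInterval, E →L[ℝ] E)) (b : C(unitInterval, E)) (T : ℝ)
    (ℓ : E →L[ℝ] ℝ) (y : C(unitInterval, E)) (τ : ℝ) :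
    Lin A b T ℓ (y, τ) =
      (y - cst E (y 1) - T • volt E (ptApply A y) - τ • volt E b, ℓ (y 0)) := rfl

/-- the linearisation at `(u, T)` -/
def LinAt (h : E → E) (hC : ContDiff ℝ 1 h) (ξ : C(unitInterval, E) × ℝ) (ℓ : E →L[ℝ] ℝ) :
    (C(unitInterval, E) × ℝ) →L[ℝ] (C(unitInterval, E) × ℝ) :=
  Lin ((dcm h hC).comp ξ.1) ((cm h hC).comp ξ.1) ξ.2 ℓ

lemma LinAt_congr {h h' : E → E} (e : h = h') (hC : ContDiff ℝ 1 h) (hC' : ContDiff ℝ 1 h')
    (ξ : C(unitInterval, E) × ℝ) (ℓ : E →L[ℝ] ℝ) : LinAt h hC ξ ℓ = LinAt h' hC' ξ ℓ := by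
  subst e; rfl

/-- the equation for periodic solutions, with a parameter -/
def Geq (f g : C(E, E)) (ℓ : E →L[ℝ] ℝ) (k : ℝ) (p : ℝ × (C(unitInterval, E) × ℝ)) :
    C(unitInterval, E) × ℝ :=
  (p.2.1 - cst E (p.2.1 1) - p.2.2 • volt E (f.comp p.2.1 + p.1 • g.comp p.2.1),
    ℓ (p.2.1 0) - k)

lemma contDiff_Geq (f g : E → E) (hf : ContDiff ℝ 1 f) (hg : ContDiff ℝ 1 g) (ℓ : E →L[ℝ] ℝ)
    (k : ℝ) : ContDiff ℝ 1 (Geq (cm f hf) (cm g hg) ℓ k) := by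
  have h1 : ContDiff ℝ 1 (fun p : ℝ × (C(unitInterval, E) × ℝ) => (cm f hf).comp p.2.1) :=
    (contDiff_comp_nat (K := unitInterval) 1 (cm f hf) hf).comp (contDiff_fst.comp contDiff_snd)
  have h2 : ContDiff ℝ 1 (fun p : ℝ × (C(unitInterval, E) × ℝ) => (cm g hg).comp p.2.1) :=
    (contDiff_comp_nat (K := unitInterval) 1 (cm g hg) hg).comp (contDiff_fst.comp contDiff_snd)
  have h3 : ContDiff ℝ 1 (fun p : ℝ × (C(unitInterval, E) × ℝ) => p.2.1) :=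
    contDiff_fst.comp contDiff_snd
  have h4 : ContDiff ℝ 1 (fun p : ℝ × (C(unitInterval, E) × ℝ) =>
      volt E ((cm f hf).comp p.2.1 + p.1 • (cm g hg).comp p.2.1)) :=
    (volt E).contDiff.comp (h1.add (contDiff_fst.smul h2))
  have h5 : ContDiff ℝ 1 (fun p : ℝ × (C(unitInterval, E) × ℝ) => cst E (p.2.1 1)) :=
    ((cst E).comp (ev 1)).contDiff.comp h3
  have h6 : ContDiff ℝ 1 (fun p : ℝ × (C(unitInterval, E) × ℝ) => ℓ (p.2.1 0)) :=
    (ℓ.comp (ev 0)).contDiff.comp h3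
  exact ((h3.sub h5).sub ((contDiff_snd.comp contDiff_snd).smul h4)).prodMk (h6.sub contDiff_const)

lemma Geq_slice (f g : E → E) (hf : ContDiff ℝ 1 f) (hg : ContDiff ℝ 1 g) (ε : ℝ)
    (hfg : ContDiff ℝ 1 (f + ε • g)) (ℓ : E →L[ℝ] ℝ) (k : ℝ) (ξ : C(unitInterval, E) × ℝ) :
    HasFDerivAt (fun ξ => Geq (cm f hf) (cm g hg) ℓ k (ε, ξ))
      (LinAt _ hfg ξ ℓ) ξ := by
  have e : (fun ξ => Geq (cm f hf) (cm g hg) ℓ k (ε, ξ)) = fun ξ : C(unitInterval, E) × ℝ =>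
      (ξ.1 - cst E (ξ.1 1) - ξ.2 • volt E ((cm _ hfg).comp ξ.1), ℓ (ξ.1 0) - k) := by
    funext ξ
    rfl
  rw [e]
  have h1 : HasFDerivAt (fun ξ : C(unitInterval, E) × ℝ => (cm _ hfg).comp ξ.1)
      ((ptApply ((dcm _ hfg).comp ξ.1)).comp (ContinuousLinearMap.fst ℝ _ _)) ξ :=
    (hasFDerivAt_comp (K := unitInterval) (cm _ hfg) (dcm _ hfg) (hasFDerivAt_cm _ hfg) ξ.1).comp
      ξ hasFDerivAt_fst
  have h2 := ((volt E).hasFDerivAt (x := (cm _ hfg).comp ξ.1)).comp ξ h1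
  have h3 : HasFDerivAt (fun ξ : C(unitInterval, E) × ℝ => ξ.2)
    (ContinuousLinearMap.snd ℝ C(unitInterval, E) ℝ) ξ := hasFDerivAt_snd
  have h4 := h3.smul h2
  have h5 : HasFDerivAt (fun ξ : C(unitInterval, E) × ℝ => ξ.1 - cst E (ξ.1 1))
      ((ContinuousLinearMap.id ℝ C(unitInterval, E) - (cst E).comp (ev 1)).comp
        (ContinuousLinearMap.fst ℝ _ _)) ξ :=
    ((ContinuousLinearMap.id ℝ C(unitInterval, E) - (cst E).comp (ev 1)).comp
        (ContinuousLinearMap.fst ℝ C(unitInterval, E) ℝ)).hasFDerivAt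
  have h6 : HasFDerivAt (fun ξ : C(unitInterval, E) × ℝ => ℓ (ξ.1 0) - k)
      ((ℓ.comp (ev 0)).comp (ContinuousLinearMap.fst ℝ _ _)) ξ :=
    ((ℓ.comp (ev 0)).comp (ContinuousLinearMap.fst ℝ C(unitInterval, E) ℝ)).hasFDerivAt.sub_const k
  have h7 := (h5.sub h4).prodMk h6
  refine h7.congr_fderiv ?_
  ext1 <;> ext p <;> simp [LinAt, Lin]

lemma Geq_slice' (f g : E → E) (hf : ContDiff ℝ 1 f) (hg : ContDiff ℝ 1 g) (ℓ : E →L[ℝ] ℝ)
    (k : ℝ) (ξ : C(unitInterval, E) × ℝ) (ε : ℝ) :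
    HasDerivAt (fun ε => Geq (cm f hf) (cm g hg) ℓ k (ε, ξ))
      (-(ξ.2 • volt E ((cm g hg).comp ξ.1)), 0) ε := by
  have e : (fun ε => Geq (cm f hf) (cm g hg) ℓ k (ε, ξ)) = fun ε : ℝ =>
      (ξ.1 - cst E (ξ.1 1) - ξ.2 • volt E ((cm f hf).comp ξ.1), ℓ (ξ.1 0) - k) +
        ε • ((-(ξ.2 • volt E ((cm g hg).comp ξ.1)), 0) : C(unitInterval, E) × ℝ) := by
    funext ε
    simp only [Geq, map_add, map_smul, Prod.smul_mk, smul_zero, Prod.mk_add_mk, add_zero]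
    congr 1
    module
  rw [e]
  have := ((hasDerivAt_id ε).smul_const
    ((-(ξ.2 • volt E ((cm g hg).comp ξ.1)), 0) : C(unitInterval, E) × ℝ)).const_add
      (ξ.1 - cst E (ξ.1 1) - ξ.2 • volt E ((cm f hf).comp ξ.1), ℓ (ξ.1 0) - k)
  simpa using this

/-- `u` is a periodic solution of `u' = T h (u)`, `0 ≤ s ≤ 1`, in integral form. -/
def Sol (h : C(E, E)) (u : C(unitInterval, E)) (T : ℝ) : Prop :=
  u - cst E (u 1) - T • volt E (h.comp u) = 0

variable [CompleteSpace E]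

theorem perturb (f g : E → E) (hf : ContDiff ℝ 1 f) (hg : ContDiff ℝ 1 g)
    (u : C(unitInterval, E)) (T : ℝ) (hsol : Sol (cm f hf) u T) (ℓ : E →L[ℝ] ℝ)
    (hinv : (LinAt f hf (u, T) ℓ).IsInvertible)
    (hfg : ∀ ε : ℝ, ContDiff ℝ 1 (f + ε • g)) :
    ∃ ξ : ℝ → C(unitInterval, E) × ℝ, ξ 0 = (u, T) ∧
      HasDerivAt ξ ((LinAt f hf (u, T) ℓ).inverse
        (T • volt E ((cm g hg).comp u), 0)) 0 ∧
      (∀ᶠ ε in 𝓝 0, Sol (cm _ (hfg ε)) (ξ ε).1 (ξ ε).2) ∧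
      (∀ᶠ ε in 𝓝 0, (LinAt _ (hfg ε) (ξ ε) ℓ).IsInvertible) := by
  set k := ℓ (u 0) with hk
  set G := Geq (cm f hf) (cm g hg) ℓ k with hG
  have hGC : ContDiff ℝ 1 G := contDiff_Geq f g hf hg ℓ k
  have hpart : ∀ p : ℝ × (C(unitInterval, E) × ℝ),
      fderiv ℝ G p ∘L .inr ℝ ℝ (C(unitInterval, E) × ℝ) = LinAt _ (hfg p.1) p.2 ℓ := by
    intro p
    have h1 : HasFDerivAt (fun ξ => G (p.1, ξ))
        (fderiv ℝ G p ∘L .inr ℝ ℝ (C(unitInterval, E) × ℝ)) p.2 :=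
      HasFDerivAt.comp (g := G) p.2 (hGC.differentiable one_ne_zero p).hasFDerivAt
        (hasFDerivAt_prodMk_right p.1 p.2)
    exact h1.unique (Geq_slice f g hf hg p.1 (hfg p.1) ℓ k p.2)
  have e0 : f + (0 : ℝ) • g = f := by rw [zero_smul, add_zero]
  have hpart0 : fderiv ℝ G (0, (u, T)) ∘L .inr ℝ ℝ (C(unitInterval, E) × ℝ) =
      LinAt f hf (u, T) ℓ := by
    rw [hpart]
    exact LinAt_congr e0 _ _ _ _
  have hinv' : (fderiv ℝ G (0, (u, T)) ∘L .inr ℝ ℝ (C(unitInterval, E) × ℝ)).IsInvertible := by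
    rw [hpart0]
    exact hinv
  have h0 : G (0, (u, T)) = 0 := by
    have e : G (0, (u, T)) = (u - cst E (u 1) - T • volt E ((cm f hf).comp u), ℓ (u 0) - k) := by
      simp [hG, Geq]
    rw [e, hsol, hk, sub_self]
    rfl
  have cdf : ContDiffAt ℝ 1 G (0, (u, T)) := hGC.contDiffAt
  set ξ := cdf.implicitFunction one_ne_zero hinv' with hξ
  have hd := (cdf.hasStrictFDerivAt_implicitFunction one_ne_zero hinv').hasFDerivAt.hasDerivAt
  have hξ0 : ξ 0 = (u, T) := cdf.implicitFunction_apply_self one_ne_zero hinv'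
  have hev := cdf.eventually_apply_implicitFunction one_ne_zero hinv'
  have hcont : ContinuousAt ξ 0 := hd.continuousAt
  refine ⟨ξ, hξ0, ?_, ?_, ?_⟩
  · have e1 : (fderiv ℝ G (0, (u, T)) ∘L .inl ℝ ℝ (C(unitInterval, E) × ℝ)) 1 =
        (-(T • volt E ((cm g hg).comp u)), 0) := by
      have h1 : HasDerivAt (fun ε => G (ε, (u, T)))
          ((fderiv ℝ G (0, (u, T)) ∘L .inl ℝ ℝ (C(unitInterval, E) × ℝ)) 1) 0 := by
        have h2 : HasFDerivAt (fun ε : ℝ => (ε, ((u, T) : C(unitInterval, E) × ℝ)))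
          (.inl ℝ ℝ (C(unitInterval, E) × ℝ)) 0 := hasFDerivAt_prodMk_left (0 : ℝ) _
        have := HasFDerivAt.comp (g := G) (0 : ℝ)
          (hGC.differentiable one_ne_zero (0, (u, T))).hasFDerivAt h2
        exact this.hasDerivAt
      exact h1.unique (Geq_slice' f g hf hg ℓ k (u, T) 0)
    have e2 : ((-(T • volt E ((cm g hg).comp u)), 0) : C(unitInterval, E) × ℝ) =
        -(T • volt E ((cm g hg).comp u), 0) := by simp
    have e3 : (-(fderiv ℝ G (0, (u, T)) ∘L .inr ℝ ℝ (C(unitInterval, E) × ℝ)).inverse ∘L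
        (fderiv ℝ G (0, (u, T)) ∘L .inl ℝ ℝ (C(unitInterval, E) × ℝ))) 1 =
        (LinAt f hf (u, T) ℓ).inverse (T • volt E ((cm g hg).comp u), 0) := by
      change -((fderiv ℝ G (0, (u, T)) ∘L .inr ℝ ℝ (C(unitInterval, E) × ℝ)).inverse
        ((fderiv ℝ G (0, (u, T)) ∘L .inl ℝ ℝ (C(unitInterval, E) × ℝ)) 1)) = _
      rw [e1, e2, map_neg, neg_neg, hpart0]
    rw [← e3]
    exact hd
  · filter_upwards [hev] with ε hε
    have hε' : G (ε, ξ ε) = 0 := by rw [← h0]; exact hε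
    exact congrArg Prod.fst hε'
  · have hc : Tendsto (fun ε => fderiv ℝ G (ε, ξ ε) ∘L .inr ℝ ℝ (C(unitInterval, E) × ℝ)) (𝓝 0)
        (𝓝 (fderiv ℝ G (0, (u, T)) ∘L .inr ℝ ℝ (C(unitInterval, E) × ℝ))) := by
      have h1 : ContinuousAt (fun ε : ℝ => (ε, ξ ε)) 0 := continuousAt_id.prodMk hcont
      have h2 : ContinuousAt (fderiv ℝ G) (0, ξ 0) :=
        (hGC.continuous_fderiv one_ne_zero).continuousAt
      have h3 : ContinuousAt (fun ε : ℝ => fderiv ℝ G (ε, ξ ε)) 0 :=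
        ContinuousAt.comp (g := fderiv ℝ G) h2 h1
      have h4 : ContinuousAt (fun ε => fderiv ℝ G (ε, ξ ε) ∘L
          .inr ℝ ℝ (C(unitInterval, E) × ℝ)) 0 := by
        exact h3.clm_comp continuousAt_const
      have := h4.tendsto
      simpa only [hξ0] using this
    obtain ⟨e, he⟩ := hinv'
    have h5 := hc.eventually (he ▸ ContinuousLinearEquiv.nhds e)
    filter_upwards [h5] with ε hε
    obtain ⟨e', he'⟩ := hε
    rw [hpart] at he'
    exact ⟨e', he'⟩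

lemma norm_volt_le (β : C(unitInterval, E)) : ‖volt E β‖ ≤ ∫ r in (0:ℝ)..1, ‖ext β r‖ := by
  have hi : ∀ a b : ℝ, IntervalIntegrable (fun r => ‖ext β r‖) volume a b := fun a b =>
    (continuous_ext β).norm.intervalIntegrable a b
  rw [ContinuousMap.norm_le _ (intervalIntegral.integral_nonneg zero_le_one
    fun r _ => norm_nonneg _)]
  intro s
  rw [volt_apply]
  calc ‖∫ r in (0:ℝ)..s, ext β r‖ ≤ ∫ r in (0:ℝ)..s, ‖ext β r‖ :=
        intervalIntegral.norm_integral_le_integral_norm s.2.1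
    _ ≤ ∫ r in (0:ℝ)..1, ‖ext β r‖ := by
        rw [← intervalIntegral.integral_add_adjacent_intervals (hi 0 s) (hi s 1)]
        have := intervalIntegral.integral_nonneg (μ := volume) (a := (s:ℝ)) (b := 1) s.2.2
          (fun r _ => norm_nonneg (ext β r))
        linarith

end Pool.Agent.L5helper76.Sync
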