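import Pool.Agent.L5helper76.Sync.Good

/-! Responses at a maximal point. -/

open Topology Filter Set MeasureTheory
open Pool.Agent.GR.Flow (volt cst cst_apply ext continuous_ext ext_of_mem norm_ext_le volt_apply
  volt_norm_le)

noncomputable section

namespace Pool.Agent.L5helper76.Sync

variable {N A S K Z : Type} [Fintype N] [DecidableEq N] [Fintype A] {G : Network N A S K Z}
  {P : Z → Type} [∀ τ, NormedAddCommGroup (P τ)] [∀ τ, NormedSpace ℝ (P τ)]
  [∀ τ, FiniteDimensional ℝ (P τ)]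
variable {sm : Prop} {f : G.State P → G.State P} {x0 : ℝ → G.State P} {u0 : C(unitInterval, G.State P)}
  {T0 δ : ℝ} {h : G.State P → G.State P} {u : C(unitInterval, G.State P)} {T : ℝ}

/-- derivative of the curve at an interior time -/
lemma hasDerivAt_ext (hG : Good G P sm f x0 u0 T0 δ h u T) {s : unitInterval} (h0 : (0:ℝ) < s)
    (h1 : (s:ℝ) < 1) : HasDerivAt (ext u) (T • h (u s)) s := by
  have : CompleteSpace (G.State P) := FiniteDimensional.complete ℝ _
  obtain ⟨X, hX1, hX2, hX3⟩ := exists_periodic h hG.adm.1.continuous u T hG.Tpos hG.sol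
  have h2 : HasDerivAt (fun r => X (T * r)) (T • h (u s)) s := by
    have := (hX1 (T * s)).scomp (s : ℝ) ((hasDerivAt_id (s : ℝ)).const_mul T)
    rw [hX3, mul_one] at this
    exact this
  refine h2.congr_of_eventuallyEq ?_
  filter_upwards [Icc_mem_nhds h0 h1] with r hr
  rw [ext_of_mem u hr]
  exact (hX3 ⟨r, hr⟩).symm

omit [Fintype N] [DecidableEq N] [Fintype A] [∀ τ, FiniteDimensional ℝ (P τ)] in
lemma same_deriv [Fintype N] {α : ℝ → G.State P} {α' : G.State P} {r : ℝ}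
    (hα : HasDerivAt α α' r) {c d : N}
    (hs : ∀ᶠ q in 𝓝 r, Same (α q c) (α q d)) : Same (α' c) (α' d) := by
  have ht : G.space c = G.space d := hs.self_of_nhds.ty
  rw [same_iff ht]
  have h1 : HasDerivAt (fun q => tr P ht (α q c)) (tr P ht (α' c)) r :=
    (tr P ht).hasFDerivAt.comp_hasDerivAt r (hasDerivAt_pi.1 hα c)
  have h2 : HasDerivAt (fun q => α q d) (α' d) r := hasDerivAt_pi.1 hα d
  refine h1.unique (h2.congr_of_eventuallyEq ?_)
  filter_upwards [hs] with q hq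
  exact (same_iff ht _ _).1 hq

omit [Fintype N] [DecidableEq N] [Fintype A] [∀ τ, FiniteDimensional ℝ (P τ)] in
lemma zero_deriv [Fintype N] {α : ℝ → G.State P} {α' : G.State P} {r : ℝ}
    (hα : HasDerivAt α α' r) {c : N}
    (hs : ∀ᶠ q in 𝓝 r, α q c = 0) : α' c = 0 := by
  have h2 : HasDerivAt (fun q => α q c) (α' c) r := hasDerivAt_pi.1 hα c
  refine h2.unique ((hasDerivAt_const r (0 : P (G.space c))).congr_of_eventuallyEq ?_)
  filter_upwards [hs] with q hq
  exact hq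

/-- transfer of neighbourhoods from the unit interval to the real line -/
lemma eventually_real {s : unitInterval} {p : unitInterval → Prop} (hp : ∀ᶠ s' in 𝓝 s, p s') :
    ∀ᶠ r in 𝓝 (s:ℝ), p (projIcc 0 1 zero_le_one r) := by
  have : Tendsto (projIcc (0:ℝ) 1 zero_le_one) (𝓝 (s:ℝ)) (𝓝 s) := by
    have := (continuous_projIcc (h := zero_le_one (α := ℝ))).tendsto (s:ℝ)
    rwa [projIcc_val] at this
  exact this.eventually hp

/-- synchronous nodes have the same velocity at a maximal point -/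
lemma IsMaxPt.vel {s : unitInterval} (hm : IsMaxPt G P sm f x0 u0 T0 δ h u T s)
    (h0 : (0:ℝ) < s) (h1 : (s:ℝ) < 1) {c d : N} (hs : Same (u s c) (u s d)) :
    Same (h (u s) c) (h (u s) d) := by
  have h2 := hasDerivAt_ext hm.good h0 h1
  have h3 : ∀ᶠ r in 𝓝 (s:ℝ), Same (ext u r c) (ext u r d) := by
    have := eventually_real (hm.near_s)
    filter_upwards [this] with r hr
    exact (hr.2.2 c d).1 hs
  have h4 := (same_deriv h2 h3).smul' T⁻¹
  simp only [Pi.smul_apply, smul_smul, inv_mul_cancel₀ hm.good.Tpos.ne', one_smul] at h4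
  exact h4

/-- The response at a maximal point. -/
theorem IsMaxPt.response {s : unitInterval} (hm : IsMaxPt G P sm f x0 u0 T0 δ h u T s)
    (h0 : (0:ℝ) < s) (h1 : (s:ℝ) < 1)
    {g : G.State P → G.State P} (hg : IsAdmissible G P sm g)
    {ξ : ℝ → C(unitInterval, G.State P) × ℝ} {η : C(unitInterval, G.State P) × ℝ}
    (hξ0 : ξ 0 = (u, T)) (hd : HasDerivAt ξ η 0)
    (hgood : ∀ᶠ ε in 𝓝 (0:ℝ), Good G P sm f x0 u0 T0 δ (h + ε • g) (ξ ε).1 (ξ ε).2) :
    (∀ c d, Same (u s c) (u s d) → Same (η.1 s c) (η.1 s d) ∧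
      Same ((fderiv ℝ h (u s) (η.1 s) + g (u s)) c) ((fderiv ℝ h (u s) (η.1 s) + g (u s)) d)) ∧
    ∀ c, h (u s) c = 0 → (fderiv ℝ h (u s) (η.1 s) + g (u s)) c = 0 := by
  have hne := hm.near_eps hg hξ0 hd.continuousAt hgood
  have e1 : HasDerivAt (fun ε => (ξ ε).1 s) (η.1 s) 0 := by
    have := ((ev s).comp (ContinuousLinearMap.fst ℝ _ ℝ)).hasFDerivAt.comp_hasDerivAt 0 hd
    exact this
  have e2 : HasDerivAt (fun ε : ℝ => (h + ε • g) ((ξ ε).1 s))
      (fderiv ℝ h (u s) (η.1 s) + g (u s)) 0 := by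
    have h2 : HasFDerivAt h (fderiv ℝ h (u s)) ((ξ 0).1 s) := by
      rw [hξ0]; exact (hm.good.adm.1.differentiable one_ne_zero _).hasFDerivAt
    have h3 : HasDerivAt (fun ε => h ((ξ ε).1 s)) (fderiv ℝ h (u s) (η.1 s)) 0 :=
      h2.comp_hasDerivAt 0 e1
    have h4 : HasFDerivAt g (fderiv ℝ g (u s)) ((ξ 0).1 s) := by
      rw [hξ0]; exact (hg.1.differentiable one_ne_zero _).hasFDerivAt
    have h5 : HasDerivAt (fun ε => g ((ξ ε).1 s)) (fderiv ℝ g (u s) (η.1 s)) 0 :=
      h4.comp_hasDerivAt 0 e1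
    have h6 := h3.add ((hasDerivAt_id (0:ℝ)).smul h5)
    refine h6.congr_deriv ?_
    simp [hξ0]
  refine ⟨fun c d hcd => ⟨?_, ?_⟩, fun c hc => ?_⟩
  · refine same_deriv e1 ?_
    filter_upwards [hne] with ε hε
    exact (hε.2.2 c d).1 hcd
  · refine same_deriv e2 ?_
    filter_upwards [hne] with ε hε
    exact hε.1.vel h0 h1 ((hε.2.2 c d).1 hcd)
  · refine zero_deriv e2 ?_
    filter_upwards [hne] with ε hε
    exact (hε.2.1 c).1 hc

end Pool.Agent.L5helper76.Sync
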