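import Pool.Agent.L5helper76.Sync.Bal

/-! Dimension count for the nodes at rest. -/

open Topology Filter Set MeasureTheory
open Pool.Agent.GR.Flow (volt cst cst_apply ext continuous_ext ext_of_mem norm_ext_le volt_apply
  volt_norm_le)

noncomputable section

namespace Pool.Agent.L5helper76.Sync

variable {N A S K Z : Type} [Fintype N] [DecidableEq N] [Fintype A] {G : Network N A S K Z}
  {P : Z → Type} [∀ τ, NormedAddCommGroup (P τ)] [∀ τ, NormedSpace ℝ (P τ)]
  [∀ τ, FiniteDimensional ℝ (P τ)]
variable {sm : Prop} {f : G.State P → G.State P} {x0 : ℝ → G.State P} {u0 : C(unitInterval, G.State P)}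
  {T0 δ : ℝ} {h : G.State P → G.State P} {u : C(unitInterval, G.State P)} {T : ℝ}

/-- states supported on the nodes of `C0` which respect the relation `r` there -/
def subm (G : Network N A S K Z) (P : Z → Type) [∀ τ, NormedAddCommGroup (P τ)]
    [∀ τ, NormedSpace ℝ (P τ)] (C0 : N → Prop) (r : N → N → Prop) : Submodule ℝ (G.State P) where
  carrier := {w | (∀ c, ¬ C0 c → w c = 0) ∧ ∀ c d, C0 c → C0 d → r c d →
    G.space c = G.space d → Same (w c) (w d)}
  add_mem' := by
    rintro w w' ⟨h1, h2⟩ ⟨h1', h2'⟩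
    refine ⟨fun c hc => ?_, fun c d hc hd hcd ht => (h2 c d hc hd hcd ht).add' (h2' c d hc hd hcd ht)⟩
    rw [Pi.add_apply, h1 c hc, h1' c hc, add_zero]
  zero_mem' := by
    refine ⟨fun c _ => rfl, fun c d _ _ _ ht => ?_⟩
    rw [same_iff ht, Pi.zero_apply, Pi.zero_apply, map_zero]
  smul_mem' := by
    rintro k w ⟨h1, h2⟩
    refine ⟨fun c hc => ?_, fun c d hc hd hcd ht => (h2 c d hc hd hcd ht).smul' k⟩
    rw [Pi.smul_apply, h1 c hc, smul_zero]

open Classical in
/-- restriction to the nodes of `C0` -/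
def resL (G : Network N A S K Z) (P : Z → Type) [∀ τ, NormedAddCommGroup (P τ)]
    [∀ τ, NormedSpace ℝ (P τ)] (C0 : N → Prop) : G.State P →ₗ[ℝ] G.State P where
  toFun w := fun c => if C0 c then w c else 0
  map_add' w w' := by
    funext c
    by_cases hc : C0 c <;> simp [hc]
  map_smul' k w := by
    funext c
    by_cases hc : C0 c <;> simp [hc]

omit [Fintype N] [DecidableEq N] [Fintype A] [∀ (τ : Z), FiniteDimensional ℝ (P τ)] in
lemma resL_pos {C0 : N → Prop} {c : N} (hc : C0 c) (w : G.State P) : resL G P C0 w c = w c :=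
  if_pos hc

omit [Fintype N] [DecidableEq N] [Fintype A] [∀ (τ : Z), FiniteDimensional ℝ (P τ)] in
lemma resL_neg {C0 : N → Prop} {c : N} (hc : ¬ C0 c) (w : G.State P) : resL G P C0 w c = 0 :=
  if_neg hc

theorem IsMaxPt.rest_eqv [∀ τ, Nontrivial (P τ)] {s : unitInterval}
    (hm : IsMaxPt G P sm f x0 u0 T0 δ h u T s) (h0 : (0:ℝ) < s) (h1 : (s:ℝ) < 1) {a b : N}
    (ha : h (u s) a = 0) (hb : h (u s) b = 0) (hab : Same (u s a) (u s b)) :
    Eqv G P (u s) a b := by
  classical
  set X := u s with hX
  set C0 : N → Prop := fun c => h X c = 0 with hC0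
  set R : N → N → Prop := fun c d => Same (X c) (X d) with hR
  set DR := subm G P C0 R with hDR
  set DE := subm G P C0 (Eqv G P X) with hDE
  set 𝒜 : G.State P →ₗ[ℝ] G.State P :=
    (resL G P C0).comp (fderiv ℝ h X : G.State P →ₗ[ℝ] G.State P) with h𝒜
  have hadm := hm.good.adm
  have hRE : DR ≤ DE := by
    rintro w ⟨hw1, hw2⟩
    exact ⟨hw1, fun c d hc hd hcd ht => hw2 c d hc hd hcd.same ht⟩
  have hind : ∀ a : N, C0 a → ∀ v : P (G.space a), ind X a v ∈ DR.map 𝒜 := by
    intro a ha v
    obtain ⟨r, hr, k, hk, hgk⟩ := exists_gk_eq X a v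
    obtain ⟨C, hC0', hC⟩ := hm.good.perturb
    obtain ⟨ξ, η, hξ0, hξd, hη, hgood⟩ := hC _ (gk_adm (obs G P a X) hr v)
      (gk_bdd (obs G P a X) hr v)
    obtain ⟨r1, r2⟩ := hm.response h0 h1 (gk_adm (obs G P a X) hr v) hξ0 hξd hgood
    set y := η.1 s with hy
    have hk0 : k ≠ 0 := by positivity
    refine ⟨(-k⁻¹) • resL G P C0 y, DR.smul_mem _ ⟨fun c hc => resL_neg hc y, ?_⟩, ?_⟩
    · intro c d hc hd hcd _
      rw [resL_pos hc, resL_pos hd]
      exact (r1 c d hcd).1
    · rw [map_smul]
      funext c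
      rw [Pi.smul_apply]
      change (-k⁻¹) • resL G P C0 (fderiv ℝ h X (resL G P C0 y)) c = ind X a v c
      by_cases hc : C0 c
      · rw [resL_pos hc]
        have e1 : fderiv ℝ h X (resL G P C0 y) c = fderiv ℝ h X y c := by
          refine fderiv_local hadm X _ _ ?_
          have e0 : ∀ e : G.Inputs c, resL G P C0 y (G.tail e.1) = y (G.tail e.1) := fun e =>
            resL_pos (G := G) (P := P) (C0 := C0) (hm.rest_inputs h0 h1 hc e) y
          refine Prod.ext ?_ (funext fun e => ?_)
          · exact resL_pos hc y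
          · exact e0 e
        have e2 := r2 c hc
        rw [Pi.add_apply, ← hX, hgk, Pi.smul_apply] at e2
        rw [e1, eq_neg_of_add_eq_zero_left e2, smul_neg, neg_smul, neg_neg, smul_smul,
          inv_mul_cancel₀ hk0, one_smul]
      · rw [resL_neg hc, smul_zero, ind_neg]
        intro hE
        exact hc (hE.zero hadm ha)
  have hEA : DE ≤ DR.map 𝒜 := by
    rintro w ⟨hw1, hw2⟩
    set n : N → ℝ := fun a => ((Finset.univ.filter fun c => Eqv G P X a c).card : ℝ) with hn
    have hn0 : ∀ a, n a ≠ 0 := by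
      intro a
      have : a ∈ Finset.univ.filter fun c => Eqv G P X a c := by simp [Eqv.refl']
      have := Finset.card_pos.2 ⟨a, this⟩
      simp only [hn]
      exact_mod_cast this.ne'
    have hnE : ∀ a c, Eqv G P X a c → n a = n c := by
      intro a c hac
      simp only [hn]
      congr 2
      ext d
      simp only [Finset.mem_filter, Finset.mem_univ, true_and]
      exact ⟨fun h' => hac.symm'.trans' h', fun h' => hac.trans' h'⟩
    have hsum : w = ∑ a ∈ Finset.univ.filter C0, (n a)⁻¹ • ind X a (w a) := by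
      funext c
      rw [Finset.sum_apply]
      simp only [Pi.smul_apply]
      by_cases hc : C0 c
      · have e1 : ∑ a ∈ Finset.univ.filter C0, (n a)⁻¹ • ind X a (w a) c =
            ∑ a ∈ Finset.univ.filter (fun a => Eqv G P X c a), (n c)⁻¹ • w c := by
          rw [← Finset.sum_filter_add_sum_filter_not (Finset.univ.filter C0)
            (fun a => Eqv G P X c a)]
          have e2 : ∑ a ∈ (Finset.univ.filter C0).filter (fun a => ¬ Eqv G P X c a),
              (n a)⁻¹ • ind X a (w a) c = 0 := by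
            refine Finset.sum_eq_zero fun a ha => ?_
            rw [ind_neg _ fun hE => (Finset.mem_filter.1 ha).2 hE.symm', smul_zero]
          rw [e2, add_zero]
          have e3 : (Finset.univ.filter C0).filter (fun a => Eqv G P X c a) =
              Finset.univ.filter (fun a => Eqv G P X c a) := by
            ext a
            simp only [Finset.mem_filter, Finset.mem_univ, true_and]
            exact ⟨fun h' => h'.2, fun h' => ⟨h'.zero hadm hc, h'⟩⟩
          rw [e3]
          refine Finset.sum_congr rfl fun a ha => ?_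
          have hE : Eqv G P X c a := (Finset.mem_filter.1 ha).2
          rw [ind_pos _ hE.symm', hnE c a hE]
          congr 1
          exact ((same_iff hE.symm'.ty _ _).1
            (hw2 a c (hE.zero hadm hc) hc hE.symm' hE.symm'.ty))
        rw [e1, Finset.sum_const, ← Nat.cast_smul_eq_nsmul ℝ, smul_smul]
        have e4 : ((Finset.univ.filter fun a => Eqv G P X c a).card : ℝ) * (n c)⁻¹ = 1 :=
          mul_inv_cancel₀ (hn0 c)
        rw [e4, one_smul]
      · rw [hw1 c hc]
        symm
        refine Finset.sum_eq_zero fun a ha => ?_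
        rw [ind_neg, smul_zero]
        intro hE
        exact hc (hE.zero hadm (Finset.mem_filter.1 ha).2)
    rw [hsum]
    refine Submodule.sum_mem _ fun a ha => Submodule.smul_mem _ _ (hind a (Finset.mem_filter.1 ha).2 _)
  have hfr : Module.finrank ℝ DE ≤ Module.finrank ℝ DR :=
    (Submodule.finrank_mono hEA).trans (Submodule.finrank_map_le 𝒜 DR)
  have heq : DR = DE := Submodule.eq_of_le_of_finrank_le hRE hfr
  by_contra hno
  obtain ⟨v, hv⟩ := exists_ne (0 : P (G.space a))
  have hmem : ind X a v ∈ DE := by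
    refine ⟨fun c hc => ind_neg _ fun hE => hc (hE.zero hadm ha), fun c d hc hd hcd ht => ?_⟩
    by_cases hE : Eqv G P X a c
    · rw [ind_pos v hE, ind_pos v (hE.trans' hcd), same_iff ht, tr_tr]
    · rw [ind_neg v hE, ind_neg v fun h' => hE (h'.trans' hcd.symm'), same_iff ht, map_zero]
  rw [← heq] at hmem
  have hs := hmem.2 a b ha hb hab hab.ty
  rw [ind_pos v (Eqv.refl' X a), ind_neg v hno, same_iff hab.ty, tr_rfl] at hs
  have := norm_tr (P := P) hab.ty v
  rw [hs, norm_zero] at this
  exact hv (norm_eq_zero.1 this.symm)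

theorem IsMaxPt.balanced [∀ τ, Nontrivial (P τ)] {s : unitInterval}
    (hm : IsMaxPt G P sm f x0 u0 T0 δ h u T s) (h0 : (0:ℝ) < s) (h1 : (s:ℝ) < 1) {a b : N}
    (hab : Same (u s a) (u s b)) : Eqv G P (u s) a b := by
  by_cases ha : h (u s) a = 0
  · have hv := hm.vel h0 h1 hab
    rw [same_iff hab.ty, ha, map_zero] at hv
    exact hm.rest_eqv h0 h1 ha hv.symm hab
  · exact hm.matching h0 h1 ha hab

end Pool.Agent.L5helper76.Sync
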